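import Pool.Agent.Run7.h561.FL.Cnt1
import Pool.Agent.Run7.h165.GI.All

/-! # The number of interfaces which cross a square annulus -/

set_option autoImplicit false

namespace Run7.h561.FL

open H974 H12S Finset H984P H342L H342T H342P H342P.Plain MeasureTheory Filter Topology
open Pool.Agent.TH990.FU (zp)
open Run7.h561.CC (Seq lawE)
open Run7.h165.GI (orb_trunc Sc Sc_compact)

/-- the sup distance to `q` -/
def sd (q v : ℤ × ℤ) : ℤ := max |v.1 - q.1| |v.2 - q.2|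

theorem sd_step (q : ℤ × ℤ) (G : Set Edg) (σ : St) (j : ℕ) :
    sd q (orb G σ j).1 ≤ sd q (orb G σ (j + 1)).1 + 1 ∧
      sd q (orb G σ (j + 1)).1 ≤ sd q (orb G σ j).1 + 1 := by
  have h := nxt_fst G (orb G σ j)
  rw [← orb_succ] at h
  obtain ⟨h1, h2⟩ := h
  unfold sd
  constructor
  · refine max_le ?_ ?_
    · have e1 := le_max_left |(orb G σ (j + 1)).1.1 - q.1| |(orb G σ (j + 1)).1.2 - q.2|
      have e2 := abs_sub_abs_le_abs_sub ((orb G σ j).1.1 - q.1) ((orb G σ (j + 1)).1.1 - q.1)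
      rw [show (orb G σ j).1.1 - q.1 - ((orb G σ (j + 1)).1.1 - q.1) =
        -((orb G σ (j + 1)).1.1 - (orb G σ j).1.1) by ring, abs_neg] at e2
      omega
    · have e1 := le_max_right |(orb G σ (j + 1)).1.1 - q.1| |(orb G σ (j + 1)).1.2 - q.2|
      have e2 := abs_sub_abs_le_abs_sub ((orb G σ j).1.2 - q.2) ((orb G σ (j + 1)).1.2 - q.2)
      rw [show (orb G σ j).1.2 - q.2 - ((orb G σ (j + 1)).1.2 - q.2) =
        -((orb G σ (j + 1)).1.2 - (orb G σ j).1.2) by ring, abs_neg] at e2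
      omega
  · refine max_le ?_ ?_
    · have e1 := le_max_left |(orb G σ j).1.1 - q.1| |(orb G σ j).1.2 - q.2|
      have e2 := abs_sub_abs_le_abs_sub ((orb G σ (j + 1)).1.1 - q.1) ((orb G σ j).1.1 - q.1)
      rw [show (orb G σ (j + 1)).1.1 - q.1 - ((orb G σ j).1.1 - q.1) =
        ((orb G σ (j + 1)).1.1 - (orb G σ j).1.1) by ring] at e2
      omega
    · have e1 := le_max_right |(orb G σ j).1.1 - q.1| |(orb G σ j).1.2 - q.2|
      have e2 := abs_sub_abs_le_abs_sub ((orb G σ (j + 1)).1.2 - q.2) ((orb G σ j).1.2 - q.2)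
      rw [show (orb G σ (j + 1)).1.2 - q.2 - ((orb G σ j).1.2 - q.2) =
        ((orb G σ (j + 1)).1.2 - (orb G σ j).1.2) by ring] at e2
      omega

theorem far_sd {q v w : ℤ × ℤ} {x y R : ℤ} (h1 : x ≤ sd q v) (h2 : sd q w ≤ y)
    (h : y + R ≤ x) (hR : 0 ≤ R) : Far v R w := by
  unfold sd at h1 h2
  have a1 := (le_max_left _ _).trans h2
  have a2 := (le_max_right _ _).trans h2
  rw [abs_le] at a1 a2
  unfold Far
  rcases le_max_iff.1 h1 with h3 | h3
  · rcases le_abs.1 h3 with h4 | h4 <;> omega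
  · rcases le_abs.1 h3 with h4 | h4 <;> omega

theorem far_symm {v w : ℤ × ℤ} {R : ℤ} (h : Far v R w) : Far w R v := by
  unfold Far at h ⊢
  omega

/-- the crossing indices -/
theorem cross_idx {q : ℤ × ℤ} {a : ℕ} (ha : 5 ≤ a) {G : Set Edg} {σ : St} {N j1 j2 : ℕ}
    (hj1 : j1 < N) (hj2 : j2 < N) (h1 : sd q (orb G σ j1).1 ≤ 8 * a + 9)
    (h2 : (16 * a - 2 : ℤ) ≤ sd q (orb G σ j2).1) :
    ∃ u t, u + t < N ∧ sd q (orb G σ u).1 ≤ 16 * a - 3 ∧
      Far (orb G σ u).1 (4 * a + 2) (orb G (orb G σ u) t).1 := by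
  have ha1 : (5:ℤ) ≤ a := by exact_mod_cast ha
  have hne : j1 ≠ j2 := by
    rintro rfl
    omega
  rcases Nat.lt_or_gt_of_ne hne with hlt | hlt
  · refine ⟨j1, j2 - j1, by omega, by omega, ?_⟩
    rw [← orb_add, show j2 - j1 + j1 = j2 by omega]
    exact far_symm (far_sd h2 h1 (by omega) (by omega))
  · classical
    let P : ℕ → Prop := fun i => (16 * a - 3 : ℤ) ≤ sd q (orb G σ i).1
    set u := Nat.findGreatest P j1 with hu
    have hP2 : P j2 := by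
      show (16 * a - 3 : ℤ) ≤ _
      omega
    have hPu : P u := Nat.findGreatest_spec (P := P) hlt.le hP2
    have hule : u ≤ j1 := Nat.findGreatest_le j1
    have hPu' : (16 * a - 3 : ℤ) ≤ sd q (orb G σ u).1 := hPu
    have hult : u < j1 := by
      rcases hule.lt_or_eq with h | h
      · exact h
      · rw [h] at hPu'
        omega
    have hnot : ¬ P (u + 1) := Nat.findGreatest_is_greatest (P := P) (n := j1) (by omega) (by omega)
    have hnot' : sd q (orb G σ (u + 1)).1 < 16 * a - 3 := by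
      by_contra hcon
      exact hnot (by
        show (16 * a - 3 : ℤ) ≤ _
        omega)
    have hs := sd_step q G σ u
    refine ⟨u, j1 - u, by omega, by omega, ?_⟩
    rw [← orb_add, show j1 - u + u = j1 by omega]
    exact far_sd hPu' h1 (by omega) (by omega)

theorem sd_le {q v : ℤ × ℤ} {x : ℤ} : sd q v ≤ x ↔ |v.1 - q.1| ≤ x ∧ |v.2 - q.2| ≤ x := max_le_iff

/-- **One crossing path gives a strand.** -/
theorem one_strand {q : ℤ × ℤ} {a : ℕ} (ha : 5 ≤ a) {G : Set Edg} {F : Finset Edg}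
    (hG : ∀ e ∈ RE (q.1 - (20 * a : ℕ)) (q.1 + (20 * a : ℕ)) (q.2 - (20 * a : ℕ))
      (q.2 + (20 * a : ℕ)), (e ∈ G ↔ e ∈ F)) {σ : St} {N j1 j2 : ℕ}
    (hj1 : j1 < N) (hj2 : j2 < N) (h1 : sd q (orb G σ j1).1 ≤ 8 * a + 9)
    (h2 : (16 * a - 2 : ℤ) ≤ sd q (orb G σ j2).1) :
    ∃ j < N, sd q (orb G σ j).1 ≤ 20 * a ∧ ∃ (d : Fin 4) (x : ℕ × ℤ),
      Dir4 q (20 * a) a (F ∩ RE (q.1 - (20 * a : ℕ)) (q.1 + (20 * a : ℕ)) (q.2 - (20 * a : ℕ))
        (q.2 + (20 * a : ℕ))) d x (orb G σ j) := by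
  classical
  have ha1 : (5:ℤ) ≤ a := by exact_mod_cast ha
  obtain ⟨u, t0, hut, hu, hfar⟩ := cross_idx ha hj1 hj2 h1 h2
  set τ := orb G σ u with hτ
  set B := RE (q.1 - (20 * a : ℕ)) (q.1 + (20 * a : ℕ)) (q.2 - (20 * a : ℕ))
    (q.2 + (20 * a : ℕ)) with hB
  obtain ⟨t, ht, hf, hex⟩ := first_far2 (by omega) hfar
  rw [sd_le] at hu
  obtain ⟨u1, u2⟩ := hu
  rw [abs_le] at u1 u2
  have hbox : ∀ s < t, ae (orb G τ s) ∈ B := by
    intro s hs
    have hn := hf s hs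
    unfold Far at hn
    push Not at hn
    have hmv : |(mv (orb G τ s)).1.1 - (orb G τ s).1.1| ≤ 1 ∧
        |(mv (orb G τ s)).1.2 - (orb G τ s).1.2| ≤ 1 := by
      generalize orb G τ s = ρ
      obtain ⟨⟨x, y⟩, k⟩ := ρ
      cases k <;> simp
    obtain ⟨m1, m2⟩ := hmv
    rw [abs_le] at m1 m2
    rw [hB]
    rcases pb_ends (orb G τ s) with ⟨e1, e2⟩ | ⟨e1, e2⟩
    · apply H973.mem_RE_of_ends
      · rw [e1]
        unfold inR
        push_cast
        omega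
      · rw [e2]
        unfold inR
        push_cast
        omega
    · apply H973.mem_RE_of_ends
      · rw [e1]
        unfold inR
        push_cast
        omega
      · rw [e2]
        unfold inR
        push_cast
        omega
  have htr := orb_trunc (G := G) (G' := ↑(F ∩ B)) (σ := τ) (N := t) (fun s hs => by
    have h := hbox s hs
    rw [Finset.mem_coe, Finset.mem_inter, hG _ h]
    exact ⟨fun h' => h'.1, fun h' => ⟨h', h⟩⟩)
  have hfar' : Far τ.1 (4 * a + 2) (orb (↑(F ∩ B)) τ t).1 := by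
    rw [htr t le_rfl]
    unfold Far
    omega
  obtain ⟨d, x, s', hs', hD⟩ := piece (q := q) (m := 20 * a) (a := a) (by omega) (F := F ∩ B)
    (τ := τ) (t0 := t)
    (by
      have : |τ.1.1 - q.1| ≤ 16 * a - 3 := abs_le.2 u1
      push_cast
      omega)
    (by
      have : |τ.1.2 - q.2| ≤ 16 * a - 3 := abs_le.2 u2
      push_cast
      omega) hfar'
  have hn := hf s' hs'
  unfold Far at hn
  push Not at hn
  refine ⟨s' + u, by omega, ?_, d, x, ?_⟩
  · rw [orb_add, ← hτ, sd_le, abs_le, abs_le]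
    omega
  · rw [orb_add, ← hτ, ← htr s' hs'.le]
    exact hD

/-- a point of the path is near a vertex -/
theorem pth_near {δ : ℝ} (hδ : 0 < δ) (o : ℂ) (G : Set Edg) {p : St × ℕ} (hN : 0 < p.2)
    (t : unitInterval) : ∃ j < p.2,
      |((pth δ o G p).path t).re - (zp δ o (orb G p.1 j).1).re| ≤ δ ∧
      |((pth δ o G p).path t).im - (zp δ o (orb G p.1 j).1).im| ≤ δ := by
  have hN' : (0 : ℝ) < p.2 := by exact_mod_cast hN
  have ht0 : (0 : ℝ) ≤ p.2 * (t : ℝ) := mul_nonneg hN'.le t.2.1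
  have ht1 : (p.2 : ℝ) * (t : ℝ) ≤ p.2 := mul_le_of_le_one_right hN'.le t.2.2
  obtain ⟨j, hj, h1, h2⟩ : ∃ j < p.2, (j : ℝ) ≤ p.2 * (t : ℝ) ∧ p.2 * (t : ℝ) ≤ j + 1 := by
    by_cases h : ⌊(p.2 : ℝ) * (t : ℝ)⌋₊ < p.2
    · exact ⟨_, h, Nat.floor_le ht0, (Nat.lt_floor_add_one _).le⟩
    · have h3 : ((p.2 - 1 : ℕ) : ℝ) = p.2 - 1 := by
        rw [Nat.cast_sub (by omega)]
        simp
      have h4 : (p.2 : ℝ) ≤ p.2 * (t : ℝ) := (Nat.le_floor_iff ht0).1 (by omega)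
      refine ⟨p.2 - 1, by omega, ?_, ?_⟩
      · rw [h3]
        linarith
      · rw [h3]
        linarith
  refine ⟨j, hj, ?_⟩
  have hform := POL_formula (fun j => zp δ o (orb G p.1 j).1) p.2 j hj t h1 h2
  have hst := nxt_fst G (orb G p.1 j)
  rw [← orb_succ] at hst
  obtain ⟨s1, s2⟩ := hst
  have r1 : |((orb G p.1 (j + 1)).1.1 : ℝ) - (orb G p.1 j).1.1| ≤ 1 := by exact_mod_cast s1
  have r2 : |((orb G p.1 (j + 1)).1.2 : ℝ) - (orb G p.1 j).1.2| ≤ 1 := by exact_mod_cast s2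
  set θ : ℝ := (p.2 : ℝ) * (t : ℝ) - j with hθ
  have hθ0 : 0 ≤ θ := by linarith
  have hθ1 : θ ≤ 1 := by linarith
  have hval : (pth δ o G p).path t = zp δ o (orb G p.1 j).1 +
      (θ : ℂ) * (zp δ o (orb G p.1 (j + 1)).1 - zp δ o (orb G p.1 j).1) := hform
  constructor
  · rw [hval, Complex.add_re, Complex.re_ofReal_mul, Complex.sub_re]
    have e : ∀ v : Vtx, (zp δ o v).re = o.re + δ * v.1 := fun _ => rfl
    rw [e, e, show o.re + δ * ((orb G p.1 j).1.1 : ℝ) + θ * (o.re + δ * ((orb G p.1 (j + 1)).1.1 : ℝ)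
      - (o.re + δ * ((orb G p.1 j).1.1 : ℝ))) - (o.re + δ * ((orb G p.1 j).1.1 : ℝ)) =
      δ * (θ * (((orb G p.1 (j + 1)).1.1 : ℝ) - (orb G p.1 j).1.1)) by ring, abs_mul,
      abs_of_pos hδ, abs_mul, abs_of_nonneg hθ0]
    calc δ * (θ * |((orb G p.1 (j + 1)).1.1 : ℝ) - (orb G p.1 j).1.1|) ≤ δ * (1 * 1) := by gcongr
      _ = δ := by ring
  · rw [hval, Complex.add_im, Complex.im_ofReal_mul, Complex.sub_im]
    have e : ∀ v : Vtx, (zp δ o v).im = o.im + δ * v.2 := fun _ => rfl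
    rw [e, e, show o.im + δ * ((orb G p.1 j).1.2 : ℝ) + θ * (o.im + δ * ((orb G p.1 (j + 1)).1.2 : ℝ)
      - (o.im + δ * ((orb G p.1 j).1.2 : ℝ))) - (o.im + δ * ((orb G p.1 j).1.2 : ℝ)) =
      δ * (θ * (((orb G p.1 (j + 1)).1.2 : ℝ) - (orb G p.1 j).1.2)) by ring, abs_mul,
      abs_of_pos hδ, abs_mul, abs_of_nonneg hθ0]
    calc δ * (θ * |((orb G p.1 (j + 1)).1.2 : ℝ) - (orb G p.1 j).1.2|) ≤ δ * (1 * 1) := by gcongr
      _ = δ := by ring

/-- lattice coordinates -/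
theorem coord {δ : ℝ} (hδ : 0 < δ) (x y : ℝ) (v : ℤ) :
    |δ * ((v : ℝ) - ⌊(x - y) / δ⌋) - (y + δ * v - x)| ≤ δ := by
  have h1 := Int.floor_le ((x - y) / δ)
  have h2 := Int.lt_floor_add_one ((x - y) / δ)
  rw [le_div_iff₀ hδ] at h1
  rw [div_lt_iff₀ hδ] at h2
  rw [abs_le]
  constructor <;> linarith

/-- the crossing path has vertices inside and outside -/
theorem crs_idx {δ : ℝ} (hδ : 0 < δ) {o z : ℂ} {r : ℝ} {a : ℕ} (h1 : 8 * a * δ ≤ r)
    (h2 : r < 8 * (a + 1) * δ) {G : Set Edg} {p : St × ℕ} (hN : 0 < p.2)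
    (hc : Crs δ o G z r p) :
    ∃ j1 < p.2, ∃ j2 < p.2,
      sd (⌊(z.re - o.re) / δ⌋, ⌊(z.im - o.im) / δ⌋) (orb G p.1 j1).1 ≤ 8 * a + 9 ∧
      (16 * a - 2 : ℤ) ≤ sd (⌊(z.re - o.re) / δ⌋, ⌊(z.im - o.im) / δ⌋) (orb G p.1 j2).1 := by
  obtain ⟨⟨t1, ht1⟩, ⟨t2, ht2⟩⟩ := hc
  obtain ⟨j1, hj1, a1, a2⟩ := pth_near hδ o G hN t1
  obtain ⟨j2, hj2, b1, b2⟩ := pth_near hδ o G hN t2
  have e1 : ∀ v : Vtx, (zp δ o v).re = o.re + δ * v.1 := fun _ => rfl
  have e2 : ∀ v : Vtx, (zp δ o v).im = o.im + δ * v.2 := fun _ => rfl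
  refine ⟨j1, hj1, j2, hj2, ?_, ?_⟩
  · rw [sd_le]
    obtain ⟨c1, c2⟩ := ht1
    have d1 := coord hδ z.re o.re (orb G p.1 j1).1.1
    have d2 := coord hδ z.im o.im (orb G p.1 j1).1.2
    rw [e1] at a1
    rw [e2] at a2
    rw [abs_le] at a1 a2 d1 d2
    rw [abs_lt] at c1 c2
    have key : ∀ k : ℤ, |δ * (k : ℝ)| < 8 * (a + 1) * δ + 2 * δ → |k| ≤ 8 * a + 9 := by
      intro k hk
      rw [abs_mul, abs_of_pos hδ] at hk
      have h3 : |(k : ℝ)| < 8 * a + 10 := by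
        have : δ * |(k : ℝ)| < δ * (8 * a + 10) := by linarith
        exact lt_of_mul_lt_mul_left this hδ.le
      have h4 : |k| < 8 * a + 10 := by exact_mod_cast h3
      omega
    constructor
    · apply key
      push_cast
      rw [abs_lt]
      constructor <;> linarith
    · apply key
      push_cast
      rw [abs_lt]
      constructor <;> linarith
  · have d1 := coord hδ z.re o.re (orb G p.1 j2).1.1
    have d2 := coord hδ z.im o.im (orb G p.1 j2).1.2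
    rw [e1] at b1
    rw [e2] at b2
    have key : ∀ k : ℤ, 16 * a * δ - 2 * δ ≤ |δ * (k : ℝ)| → (16 * a - 2 : ℤ) ≤ |k| := by
      intro k hk
      rw [abs_mul, abs_of_pos hδ] at hk
      have h3 : (16 * a - 2 : ℝ) ≤ |(k : ℝ)| := by
        have : δ * (16 * a - 2) ≤ δ * |(k : ℝ)| := by linarith
        exact le_of_mul_le_mul_left this hδ
      exact_mod_cast h3
    have hout : 2 * r ≤ |((pth δ o G p).path t2).re - z.re| ∨
        2 * r ≤ |((pth δ o G p).path t2).im - z.im| := by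
      by_contra hcon
      push Not at hcon
      exact ht2 hcon
    unfold sd
    rw [le_max_iff]
    rcases hout with h | h
    · left
      apply key
      push_cast
      have k1 := abs_sub_abs_le_abs_sub (((pth δ o G p).path t2).re - z.re)
        (δ * (((orb G p.1 j2).1.1 : ℝ) - ⌊(z.re - o.re) / δ⌋))
      have k2 : |((pth δ o G p).path t2).re - z.re -
          δ * (((orb G p.1 j2).1.1 : ℝ) - ⌊(z.re - o.re) / δ⌋)| ≤ 2 * δ := by
        rw [abs_le] at b1 d1 ⊢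
        constructor <;> linarith
      linarith
    · right
      apply key
      push_cast
      have k1 := abs_sub_abs_le_abs_sub (((pth δ o G p).path t2).im - z.im)
        (δ * (((orb G p.1 j2).1.2 : ℝ) - ⌊(z.im - o.im) / δ⌋))
      have k2 : |((pth δ o G p).path t2).im - z.im -
          δ * (((orb G p.1 j2).1.2 : ℝ) - ⌊(z.im - o.im) / δ⌋)| ≤ 2 * δ := by
        rw [abs_le] at b2 d2 ⊢
        constructor <;> linarith
      linarith

/-- the vertices of the box -/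
theorem sd_pos {δ : ℝ} (hδ : 0 < δ) {o z : ℂ} {r : ℝ} {a : ℕ} (ha : 5 ≤ a) (h1 : 8 * a * δ ≤ r)
    {v : ℤ × ℤ} (h : sd (⌊(z.re - o.re) / δ⌋, ⌊(z.im - o.im) / δ⌋) v ≤ 20 * a) :
    zp δ o v ∈ Run7.h561.EC.Sq (3 * r) z := by
  rw [sd_le] at h
  obtain ⟨h2, h3⟩ := h
  have ha1 : (5:ℝ) ≤ a := by exact_mod_cast ha
  have d1 := coord hδ z.re o.re v.1
  have d2 := coord hδ z.im o.im v.2
  have e1 : (zp δ o v).re = o.re + δ * v.1 := rfl
  have e2 : (zp δ o v).im = o.im + δ * v.2 := rfl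
  have f1 : |((v.1 : ℝ) - ⌊(z.re - o.re) / δ⌋)| ≤ 20 * a := by exact_mod_cast h2
  have f2 : |((v.2 : ℝ) - ⌊(z.im - o.im) / δ⌋)| ≤ 20 * a := by exact_mod_cast h3
  have g1 : |δ * ((v.1 : ℝ) - ⌊(z.re - o.re) / δ⌋)| ≤ δ * (20 * a) := by
    rw [abs_mul, abs_of_pos hδ]
    gcongr
  have g2 : |δ * ((v.2 : ℝ) - ⌊(z.im - o.im) / δ⌋)| ≤ δ * (20 * a) := by
    rw [abs_mul, abs_of_pos hδ]
    gcongr
  rw [abs_le] at d1 d2 g1 g2
  have hbig : δ * 5 ≤ δ * a := by gcongr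
  constructor
  · rw [e1, abs_lt]
    constructor <;> nlinarith
  · rw [e2, abs_lt]
    constructor <;> nlinarith

/-- **CNT.** -/
theorem t_CNT : S_CNT := by
  classical
  intro s D hD hag z r hr hsub
  obtain ⟨C, hC, hnl⟩ := nl_bound
  refine ⟨C * 41 ^ 2, by positivity, ?_⟩
  have hL : Sc (3 * r) z ⊆ D := by
    rintro w ⟨h1, h2⟩
    exact hsub ⟨by linarith, by linarith⟩
  have hsm : ∀ᶠ n in atTop, s.δ n < r / 48 := (tendsto_order.1 s.lim).2 _ (by positivity)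
  filter_upwards [hsm, hag _ hL (Sc_compact _ _)] with n hn hagn
  intro R hR k hk
  have hδ := s.pos n
  set δ := s.δ n with hδdef
  set o := s.o n with ho
  set a : ℕ := ⌊r / δ / 8⌋₊ with ha
  set q : ℤ × ℤ := (⌊(z.re - o.re) / δ⌋, ⌊(z.im - o.im) / δ⌋) with hq
  have hM : (48 : ℝ) < r / δ := by
    rw [lt_div_iff₀ hδ]
    linarith
  have ha5 : 5 ≤ a := by
    rw [ha, Nat.le_floor_iff (by positivity)]
    push_cast
    linarith
  have hfl1 : (a : ℝ) ≤ r / δ / 8 := Nat.floor_le (by positivity)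
  have hfl2 : r / δ / 8 < a + 1 := Nat.lt_floor_add_one _
  have h1 : 8 * a * δ ≤ r := by
    have : (a : ℝ) * 8 ≤ r / δ := by linarith
    rw [le_div_iff₀ hδ] at this
    linarith
  have h2 : r < 8 * (a + 1) * δ := by
    have : r / δ < (a + 1) * 8 := by linarith
    rw [div_lt_iff₀ hδ] at this
    linarith
  set B := RE (q.1 - (20 * a : ℕ)) (q.1 + (20 * a : ℕ)) (q.2 - (20 * a : ℕ))
    (q.2 + (20 * a : ℕ)) with hB
  have hBs : ∀ e ∈ B, e ∈ s.E n ∧ ∀ F ⊆ s.E n, (e ∈ s.G n F ↔ e ∈ F) := by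
    intro e he
    obtain ⟨i1, i2⟩ := H973.mem_RE_ends he
    have key : ∀ v : Vtx, inR (q.1 - (20 * a : ℕ)) (q.1 + (20 * a : ℕ)) (q.2 - (20 * a : ℕ))
        (q.2 + (20 * a : ℕ)) v → zp δ o v ∈ Sc (3 * r) z := by
      intro v hv
      unfold inR at hv
      push_cast at hv
      have h3 : sd q v ≤ 20 * a := by
        rw [sd_le, abs_le, abs_le]
        omega
      obtain ⟨h4, h5⟩ := sd_pos hδ (o := o) (z := z) (r := r) ha5 h1 h3
      exact ⟨h4.le, h5.le⟩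
    exact hagn e (key _ i1) (key _ i2)
  have hsubB : B ⊆ s.E n := fun e he => (hBs e he).1
  have hok : Ok (fun _ : Edg => (1/2:ℝ)) := fun _ => ⟨by norm_num, by norm_num⟩
  have hdet : ∀ F ⊆ s.E n, (∃ S : Finset (St × ℕ), S ⊆ R F ∧ S.card = k ∧
      ∀ p ∈ S, Crs δ o (s.G n F) z r p) → k ≤ NL q (20 * a) a (F ∩ B) := by
    rintro F hF ⟨S, hSR, hcard, hcrs⟩
    have hG : ∀ e ∈ B, (e ∈ s.G n F ↔ e ∈ F) := fun e he => (hBs e he).2 F hF
    have hst : ∀ p ∈ S, ∃ j < p.2, sd q (orb (s.G n F) p.1 j).1 ≤ 20 * a ∧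
        ∃ (d : Fin 4) (x : ℕ × ℤ), Dir4 q (20 * a) a (F ∩ B) d x (orb (s.G n F) p.1 j) := by
      intro p hp
      have hN := (hR F hF p (hSR hp)).1.1
      obtain ⟨j1, hj1, j2, hj2, k1, k2⟩ := crs_idx hδ h1 h2 hN (hcrs p hp)
      exact one_strand ha5 hG hj1 hj2 k1 k2
    choose! j hj hsd hd using hst
    rw [← hcard]
    refine card_nl S (fun p => orb (s.G n F) p.1 (j p)) ?_ hd
    intro p hp p' hp' he
    by_contra hne
    exact (hR F hF p (hSR hp)).2 p' (hSR hp') hne _ (hj p hp) _ (hj p' hp') he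
      (sd_pos hδ ha5 h1 (hsd p hp))
  have hk1 : 1 ≤ k := hk
  calc PQ (1 / 2) (s.E n) (fun F => ∃ S : Finset (St × ℕ), S ⊆ R F ∧ S.card = k ∧
        ∀ p ∈ S, Crs δ o (s.G n F) z r p)
      ≤ Pr (fun _ => (1/2:ℝ)) (s.E n) (fun F => k ≤ NL q (20 * a) a (F ∩ B)) :=
        Pr_mono hok hdet
    _ = Pr (fun _ => (1/2:ℝ)) B (fun F => k ≤ NL q (20 * a) a F) :=
        H973.Pr_restrict hsubB (fun F => k ≤ NL q (20 * a) a F)
    _ ≤ C * (((2 * (20 * a) : ℕ) : ℝ) / a + 1) ^ 2 / k := hnl q (20 * a) a k B ha5 hk1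
    _ = C * 41 ^ 2 / k := by
        have ha0 : (a : ℝ) ≠ 0 := by
          have : (5:ℝ) ≤ a := by exact_mod_cast ha5
          positivity
        congr 2
        push_cast
        rw [show 2 * (20 * (a : ℝ)) / a = 40 by field_simp; norm_num]
        norm_num

end Run7.h561.FL
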