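import Pool.Agent.Run7.h165.CC.Tight

/-! # Free boundary condition -/

set_option autoImplicit false

namespace Run7.h561.FL

open H974 MeasureTheory TopologicalSpace Filter Topology
open Pool.Agent.TH990.FU (zp)
open Run7.h561.CC (Seq)

/-- `s` is critical percolation in `D` with free boundary condition, on the lattices
`o n + δ n * ℤ²`: the edges which lie in `D` are open or closed with probability `1 / 2`, there are
no other edges. -/
def Free (s : Seq) (D : Set ℂ) : Prop :=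
  ∀ n, (∀ e : Edg, e ∈ s.E n ↔
      segment ℝ (zp (s.δ n) (s.o n) (src e)) (zp (s.δ n) (s.o n) (tgt e)) ⊆ D) ∧
    ∀ F : Finset Edg, s.G n F = (↑F : Set Edg)

theorem free_agree {s : Seq} {D : Set ℂ} (hD : IsOpen D) (h : Free s D) : s.Agree D := by
  intro L hL hc
  obtain ⟨η, hη, hth⟩ := hc.exists_thickening_subset_open hD hL
  filter_upwards [s.lim.eventually (gt_mem_nhds hη)] with n hn e he1 _
  refine ⟨((h n).1 e).2 ?_, fun F _ => by rw [(h n).2 F]; exact Finset.mem_coe⟩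
  intro x hx
  apply hth
  rw [Metric.mem_thickening_iff]
  refine ⟨_, he1, ?_⟩
  have h1 := Run7.h165.CC.seg_far (p := zp (s.δ n) (s.o n) (src e)) hx
  rw [dist_self, dist_comm (zp (s.δ n) (s.o n) (tgt e)), Run7.h165.CC.seg_dist (s.pos n)] at h1
  exact h1.trans_lt (max_lt hη hn)

theorem vert_near {δ : ℝ} (hδ : 0 < δ) (o x : ℂ) : ∃ v : Vtx, dist (zp δ o v) x ≤ 2 * δ := by
  refine ⟨(⌊(x.re - o.re) / δ⌋, ⌊(x.im - o.im) / δ⌋), ?_⟩
  have h1 := Int.floor_le ((x.re - o.re) / δ)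
  have h2 := (Int.lt_floor_add_one ((x.re - o.re) / δ)).le
  have h3 := Int.floor_le ((x.im - o.im) / δ)
  have h4 := (Int.lt_floor_add_one ((x.im - o.im) / δ)).le
  rw [le_div_iff₀ hδ] at h1 h3
  rw [div_le_iff₀ hδ] at h2 h4
  rw [dist_eq_norm]
  refine (Complex.norm_le_abs_re_add_abs_im _).trans ?_
  have h5 : |(zp δ o (⌊(x.re - o.re) / δ⌋, ⌊(x.im - o.im) / δ⌋) - x).re| ≤ δ := by
    rw [Complex.sub_re]
    simp only [zp]
    rw [abs_le]
    constructor <;> nlinarith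
  have h6 : |(zp δ o (⌊(x.re - o.re) / δ⌋, ⌊(x.im - o.im) / δ⌋) - x).im| ≤ δ := by
    rw [Complex.sub_im]
    simp only [zp]
    rw [abs_le]
    constructor <;> nlinarith
  linarith

theorem vert_finite {δ : ℝ} (hδ : 0 < δ) (o : ℂ) {D : Set ℂ} (hb : Bornology.IsBounded D) :
    {v : Vtx | zp δ o v ∈ D}.Finite := by
  obtain ⟨R, hR⟩ := hb.subset_closedBall o
  refine Set.Finite.subset ((Set.finite_Icc (-⌈R / δ⌉) ⌈R / δ⌉).prod
    (Set.finite_Icc (-⌈R / δ⌉) ⌈R / δ⌉)) ?_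
  rintro ⟨x, y⟩ hv
  have h1 := hR hv
  rw [Metric.mem_closedBall, dist_eq_norm] at h1
  have h2 := (Complex.abs_re_le_norm _).trans h1
  have h3 := (Complex.abs_im_le_norm _).trans h1
  have e1 : (zp δ o (x, y) - o).re = δ * x := by simp [zp]
  have e2 : (zp δ o (x, y) - o).im = δ * y := by simp [zp]
  rw [e1, abs_le] at h2
  rw [e2, abs_le] at h3
  have key : ∀ t : ℤ, -R ≤ δ * (t : ℝ) → δ * (t : ℝ) ≤ R → t ∈ Set.Icc (-⌈R / δ⌉) ⌈R / δ⌉ := by
    intro t k1 k2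
    have k3 : (t : ℝ) ≤ R / δ := by rw [le_div_iff₀ hδ]; linarith
    have k4 : -(R / δ) ≤ (t : ℝ) := by
      rw [neg_le, le_div_iff₀ hδ]; linarith
    have k5 := Int.le_ceil (R / δ)
    constructor
    · have : (-(⌈R / δ⌉ : ℤ) : ℝ) ≤ t := by linarith
      exact_mod_cast this
    · have : (t : ℝ) ≤ (⌈R / δ⌉ : ℤ) := by linarith
      exact_mod_cast this
  exact ⟨key x h2.1 h2.2, key y h3.1 h3.2⟩

end Run7.h561.FL
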