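import Pool.Agent.Run7.h561.FL.Tig1
import Pool.Agent.Run7.h165.GI.Hit2

/-! # All the interface loops of a bounded domain: uniform compact sets -/

set_option autoImplicit false

namespace Run7.h561.FL

open H974 H12S Finset H984P H342L H342T H342P.Plain MeasureTheory Filter Topology
open Run7.h561.EC (sh shv shs orb_shs)
open Run7.h165.GI (aff aff_path aff_cont poly_aff Sc)
open Pool.Agent.TH990.FU (zp)
open scoped ENNReal

/-- translation of the edges -/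
def shE (P : ℤ × ℤ) : Edg ↪ Edg := ⟨sh P, fun e e' h => by
  obtain ⟨x, y, b⟩ := e
  obtain ⟨x', y', b'⟩ := e'
  simp only [sh, Prod.mk.injEq] at h
  obtain ⟨h1, h2, h3⟩ := h
  rw [show x = x' by omega, show y = y' by omega, h3]⟩

theorem shs_inj {P : ℤ × ℤ} {σ τ : St} (h : shs P σ = shs P τ) : σ = τ := by
  obtain ⟨⟨x, y⟩, k⟩ := σ
  obtain ⟨⟨x', y'⟩, k'⟩ := τ
  simp only [shs, shv, Prod.mk.injEq] at h
  obtain ⟨⟨h1, h2⟩, h3⟩ := h
  rw [show x = x' by omega, show y = y' by omega, h3]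

/-- a vertex is in the window -/
theorem coord_in {δ ρ y : ℝ} (hδ : 0 < δ) {v : ℤ} (h : |y + δ * v| ≤ ρ) :
    0 ≤ v + -⌊(-ρ - y) / δ⌋ ∧ v + -⌊(-ρ - y) / δ⌋ ≤ ((⌈2 * ρ / δ⌉₊ + 1 : ℕ) : ℤ) := by
  have h1 := Int.floor_le ((-ρ - y) / δ)
  have h2 := Int.lt_floor_add_one ((-ρ - y) / δ)
  rw [le_div_iff₀ hδ] at h1
  rw [div_lt_iff₀ hδ] at h2
  have h3 := Nat.le_ceil (2 * ρ / δ)
  rw [div_le_iff₀ hδ] at h3
  rw [abs_le] at h
  constructor
  · have h4 : δ * ((⌊(-ρ - y) / δ⌋ : ℤ) : ℝ) ≤ δ * (v : ℝ) := by linarith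
    have h5 : ((⌊(-ρ - y) / δ⌋ : ℤ) : ℝ) ≤ (v : ℝ) := le_of_mul_le_mul_left h4 hδ
    have h6 : ⌊(-ρ - y) / δ⌋ ≤ v := by exact_mod_cast h5
    omega
  · have h4 : δ * (v : ℝ) < δ * (((⌊(-ρ - y) / δ⌋ : ℤ) : ℝ) + 1 + (⌈2 * ρ / δ⌉₊ : ℝ)) := by
      linarith
    have h5 : (v : ℝ) < ((⌊(-ρ - y) / δ⌋ : ℤ) : ℝ) + 1 + (⌈2 * ρ / δ⌉₊ : ℝ) :=
      lt_of_mul_lt_mul_left h4 hδ.le
    have h6 : v < ⌊(-ρ - y) / δ⌋ + 1 + (⌈2 * ρ / δ⌉₊ : ℤ) := by exact_mod_cast h5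
    push_cast
    omega

/-- a point of the path is near a vertex of its first `N` states -/
theorem pth_near' {δ : ℝ} (hδ : 0 < δ) (o : ℂ) (G : Set Edg) {p : St × ℕ} (hN : 0 < p.2)
    (t : unitInterval) : ∃ j,
      |((pth δ o G p).path t).re - (zp δ o (orb G p.1 j).1).re| ≤ δ ∧
      |((pth δ o G p).path t).im - (zp δ o (orb G p.1 j).1).im| ≤ δ := by
  have hN' : (0 : ℝ) < p.2 := by exact_mod_cast hN
  have h1 : (pth δ o G p).path t ∈ Set.range (poly (fun j => zp δ o (orb G p.1 j).1) p.2) :=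
    ⟨t, rfl⟩
  rw [(t_POL _ _ hN).2.2.1] at h1
  simp only [Set.mem_iUnion] at h1
  obtain ⟨j, -, a, b, ha, hb, hab, h2⟩ := h1
  refine ⟨j, ?_⟩
  have hst := nxt_fst G (orb G p.1 j)
  rw [← orb_succ] at hst
  obtain ⟨s1, s2⟩ := hst
  have r1 : |((orb G p.1 (j + 1)).1.1 : ℝ) - (orb G p.1 j).1.1| ≤ 1 := by exact_mod_cast s1
  have r2 : |((orb G p.1 (j + 1)).1.2 : ℝ) - (orb G p.1 j).1.2| ≤ 1 := by exact_mod_cast s2
  have hb1 : b ≤ 1 := by linarith
  have ea : a = 1 - b := by linarith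
  constructor
  · have e : ((pth δ o G p).path t).re = a * (o.re + δ * ((orb G p.1 j).1.1 : ℝ)) +
        b * (o.re + δ * ((orb G p.1 (j + 1)).1.1 : ℝ)) := by
      rw [← h2, Complex.add_re, Complex.real_smul, Complex.real_smul, Complex.re_ofReal_mul,
        Complex.re_ofReal_mul]
      rfl
    rw [e, show (zp δ o (orb G p.1 j).1).re = o.re + δ * ((orb G p.1 j).1.1 : ℝ) from rfl, ea,
      show (1 - b) * (o.re + δ * ((orb G p.1 j).1.1 : ℝ)) +
        b * (o.re + δ * ((orb G p.1 (j + 1)).1.1 : ℝ)) - (o.re + δ * ((orb G p.1 j).1.1 : ℝ)) =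
        δ * (b * (((orb G p.1 (j + 1)).1.1 : ℝ) - (orb G p.1 j).1.1)) by ring, abs_mul,
      abs_of_pos hδ, abs_mul, abs_of_nonneg hb]
    calc δ * (b * |((orb G p.1 (j + 1)).1.1 : ℝ) - (orb G p.1 j).1.1|) ≤ δ * (1 * 1) := by gcongr
      _ = δ := by ring
  · have e : ((pth δ o G p).path t).im = a * (o.im + δ * ((orb G p.1 j).1.2 : ℝ)) +
        b * (o.im + δ * ((orb G p.1 (j + 1)).1.2 : ℝ)) := by
      rw [← h2, Complex.add_im, Complex.real_smul, Complex.real_smul, Complex.im_ofReal_mul,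
        Complex.im_ofReal_mul]
      rfl
    rw [e, show (zp δ o (orb G p.1 j).1).im = o.im + δ * ((orb G p.1 j).1.2 : ℝ) from rfl, ea,
      show (1 - b) * (o.im + δ * ((orb G p.1 j).1.2 : ℝ)) +
        b * (o.im + δ * ((orb G p.1 (j + 1)).1.2 : ℝ)) - (o.im + δ * ((orb G p.1 j).1.2 : ℝ)) =
        δ * (b * (((orb G p.1 (j + 1)).1.2 : ℝ) - (orb G p.1 j).1.2)) by ring, abs_mul,
      abs_of_pos hδ, abs_mul, abs_of_nonneg hb]
    calc δ * (b * |((orb G p.1 (j + 1)).1.2 : ℝ) - (orb G p.1 j).1.2|) ≤ δ * (1 * 1) := by gcongr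
      _ = δ := by ring

/-- **Uniform compact sets of loops.** -/
theorem loops_tight {ρ : ℝ} (hρ : 0 < ρ) {ε : ℝ} (hε : 0 < ε) : ∃ K : Set Curve, IsCompact K ∧
    ∀ (δ : ℝ) (o : ℂ) (S : Finset Edg), 0 < δ → δ ≤ 1 →
      PQ (1/2) S (fun F => ∃ p : St × ℕ,
        (∀ k, zp δ o (orb (↑F : Set Edg) p.1 k).1 ∈ Sc ρ 0) ∧ Loop (↑F : Set Edg) p ∧
        pth δ o (↑F) p ∉ K) ≤ ε := by
  classical
  have hok : Ok (fun _ : Edg => (1/2:ℝ)) := fun _ => ⟨by norm_num, by norm_num⟩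
  obtain ⟨K0, hK0, -, htight⟩ := loops_tight0 hε
  set M : ℝ := 2 * ρ + 2 with hM
  have hMp : 0 < M := by positivity
  set o1 : ℂ := ⟨-ρ - 1, -ρ - 1⟩ with ho1
  refine ⟨aff o1 M '' K0, hK0.image (aff_cont o1 hMp), fun δ o S hδ hδ1 => ?_⟩
  set n : ℕ := ⌈2 * ρ / δ⌉₊ + 1 with hn
  have hn0 : 0 < n := by omega
  have hnR : (0:ℝ) < n := by exact_mod_cast hn0
  set P : ℤ × ℤ := (-⌊(-ρ - o.re) / δ⌋, -⌊(-ρ - o.im) / δ⌋) with hP
  have hδn : δ * n ≤ M := by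
    have h1 := (Nat.ceil_lt_add_one (show (0:ℝ) ≤ 2 * ρ / δ by positivity)).le
    have h2 : (n:ℝ) ≤ 2 * ρ / δ + 2 := by
      rw [hn]
      push_cast
      linarith
    calc δ * n ≤ δ * (2 * ρ / δ + 2) := by gcongr
      _ = 2 * ρ + 2 * δ := by field_simp
      _ ≤ M := by rw [hM]; linarith
  refine le_trans ?_ (htight n (S.map (shE P)) hn0)
  unfold PQ
  rw [Pr_map]
  refine Pr_mono hok fun F hF => ?_
  rintro ⟨p, hin, hp, hnot⟩
  have hE : ∀ e, e ∈ (↑F : Set Edg) ↔ sh P e ∈ (↑(F.map (shE P)) : Set Edg) := by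
    intro e
    rw [Finset.mem_coe, Finset.mem_coe]
    exact (Finset.mem_map' (shE P)).symm
  have horb := orb_shs (q := P) hE p.1
  refine ⟨(shs P p.1, p.2), fun k => ?_, ⟨hp.1, ?_, ?_⟩, ?_⟩
  · rw [horb]
    obtain ⟨h1, h2⟩ := hin k
    have e1 : (zp δ o (orb (↑F : Set Edg) p.1 k).1).re - (0:ℂ).re =
      o.re + δ * ((orb (↑F : Set Edg) p.1 k).1.1 : ℝ) := by
      rw [Complex.zero_re, sub_zero]
      rfl
    have e2 : (zp δ o (orb (↑F : Set Edg) p.1 k).1).im - (0:ℂ).im =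
      o.im + δ * ((orb (↑F : Set Edg) p.1 k).1.2 : ℝ) := by
      rw [Complex.zero_im, sub_zero]
      rfl
    rw [e1] at h1
    rw [e2] at h2
    exact ⟨coord_in hδ h1, coord_in hδ h2⟩
  · rw [horb, hp.2.1]
  · intro j hj hjN he
    rw [horb] at he
    exact hp.2.2 j hj hjN (shs_inj he)
  · have hpt : ∀ v : ℤ × ℤ, zp δ o v = (⟨o.re - δ * P.1, o.im - δ * P.2⟩ : ℂ) +
        ((δ * n : ℝ) : ℂ) * pt n (shv P v) := by
      intro v
      apply Complex.ext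
      · rw [Complex.add_re, Complex.re_ofReal_mul]
        show o.re + δ * (v.1:ℝ) = o.re - δ * P.1 + δ * n * (((v.1 + P.1 : ℤ):ℝ) / n)
        push_cast
        field_simp
        ring
      · rw [Complex.add_im, Complex.im_ofReal_mul]
        show o.im + δ * (v.2:ℝ) = o.im - δ * P.2 + δ * n * (((v.2 + P.2 : ℤ):ℝ) / n)
        push_cast
        field_simp
        ring
    have hsc : ∀ t, (pth δ o (↑F) p).path t = (⟨o.re - δ * P.1, o.im - δ * P.2⟩ : ℂ) +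
        ((δ * n : ℝ) : ℂ) * lpn n (↑(F.map (shE P))) (shs P p.1, p.2) t := by
      intro t
      unfold lpn
      rw [← poly_aff]
      have he : (fun j => zp δ o (orb (↑F : Set Edg) p.1 j).1) = fun j =>
          (⟨o.re - δ * P.1, o.im - δ * P.2⟩ : ℂ) + ((δ * n : ℝ) : ℂ) *
            pt n (orb (↑(F.map (shE P)) : Set Edg) (shs P p.1, p.2).1 j).1 := by
        funext j
        rw [hpt, horb]
        rfl
      show poly (fun j => zp δ o (orb (↑F : Set Edg) p.1 j).1) p.2 t = _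
      rw [he]
    have hMC : ((M : ℝ) : ℂ) ≠ 0 := by
      rw [Ne, Complex.ofReal_eq_zero]
      exact hMp.ne'
    set c : Curve := ⟨⟨fun t => ((M⁻¹ : ℝ) : ℂ) * ((pth δ o (↑F) p).path t - o1),
      by fun_prop⟩⟩ with hc
    have hcp : ∀ t, c.path t = ((M⁻¹ : ℝ) : ℂ) * ((pth δ o (↑F) p).path t - o1) := fun _ => rfl
    have haff : aff o1 M c = pth δ o (↑F) p := by
      have : (aff o1 M c).path = (pth δ o (↑F) p).path := by
        ext t
        rw [aff_path, hcp, Complex.ofReal_inv, ← mul_assoc, mul_inv_cancel₀ hMC, one_mul]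
        ring
      calc aff o1 M c = ⟨(aff o1 M c).path⟩ := rfl
        _ = ⟨(pth δ o (↑F) p).path⟩ := by rw [this]
        _ = _ := rfl
    refine ⟨c, ((M⁻¹ : ℝ) : ℂ) * ((⟨o.re - δ * P.1, o.im - δ * P.2⟩ : ℂ) - o1), M⁻¹ * (δ * n),
      by positivity, ?_, ?_, ?_, ?_⟩
    · rw [inv_mul_le_iff₀ hMp, mul_one]
      exact hδn
    · intro t
      obtain ⟨j, h1, h2⟩ := pth_near' hδ o (↑F : Set Edg) hp.1 t
      obtain ⟨h3, h4⟩ := hin j
      rw [Complex.zero_re, sub_zero] at h3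
      rw [Complex.zero_im, sub_zero] at h4
      rw [abs_le] at h1 h2 h3 h4
      have e1 : (c.path t).re = M⁻¹ * (((pth δ o (↑F : Set Edg) p).path t).re + (ρ + 1)) := by
        rw [hcp, Complex.re_ofReal_mul, Complex.sub_re]
        show M⁻¹ * (_ - (-ρ - 1)) = _
        ring
      have e2 : (c.path t).im = M⁻¹ * (((pth δ o (↑F : Set Edg) p).path t).im + (ρ + 1)) := by
        rw [hcp, Complex.im_ofReal_mul, Complex.sub_im]
        show M⁻¹ * (_ - (-ρ - 1)) = _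
        ring
      refine ⟨⟨?_, ?_⟩, ?_, ?_⟩
      · rw [e1]
        exact mul_nonneg (by positivity) (by linarith)
      · rw [e1, inv_mul_le_iff₀ hMp]
        linarith
      · rw [e2]
        exact mul_nonneg (by positivity) (by linarith)
      · rw [e2, inv_mul_le_iff₀ hMp]
        linarith
    · intro t
      rw [hcp, hsc]
      push_cast
      ring
    · intro hcK
      exact hnot ⟨c, hcK, haff⟩

end Run7.h561.FL
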