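import Pool.Agent.Run7.h561.FL.Asm
import Pool.Agent.Run7.h561.FL.Cnt2
import Pool.Agent.Run7.h561.FL.Tig2
import Pool.Agent.Run7.h561.FL.Fre

/-! # The collection of all the interface loops of a bounded domain -/

set_option autoImplicit false

namespace Run7.h561.FL

open H974 H12S Finset H984P H342L H342T MeasureTheory TopologicalSpace Filter Topology
open Pool.Agent.TH990.FU (zp)
open Run7.h561.CC (Seq lawE lawE_apply)
open Run7.h165.GI (Full Sc orb_inj)
open Run7.h561.EC (orb_per orb_per' orb_mod)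
open scoped ENNReal

/-- `L` is the collection of all the interface loops with vertices in `D`: each of them is
traversed once, from some starting point. -/
def AllLp (δ : ℝ) (o : ℂ) (D : Set ℂ) (G : Set Edg) (L : Col) : Prop :=
  ∃ R : Finset (St × ℕ), (∀ p ∈ R, zp δ o p.1.1 ∈ D ∧ Loop G p) ∧
    (∀ τ : St, zp δ o τ.1 ∈ D → ∃! p, p ∈ R ∧ ∃ k, orb G p.1 k = τ) ∧
    (L : Set CurveQ) = {y | ∃ p ∈ R, y = cls (pth δ o G p)}

theorem loop_inj {G : Set Edg} {p : St × ℕ} (hp : Loop G p) : Inj G p := by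
  refine ⟨hp.1, fun i j hij hj he => ?_⟩
  have e : orb G p.1 j = orb G (orb G p.1 (j - i)) i := by
    rw [← orb_add]
    congr 1
    omega
  rw [e] at he
  exact hp.2.2 (j - i) (by omega) (by omega) (orb_inj he).symm

theorem loop_full {G : Set Edg} {p : St × ℕ} (hp : Loop G p) {τ : St} (h : τ ∈ Full G p.1) :
    ∃ k < p.2, orb G p.1 k = τ := by
  obtain ⟨t, h | h⟩ := h
  · exact ⟨t % p.2, Nat.mod_lt _ hp.1, by rw [orb_mod hp.2.1]; exact h⟩
  · have h1 : orb G τ t = orb G (orb G p.1 (t * p.2 - t)) t := by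
      have hpos := hp.1
      have h3 : t ≤ t * p.2 := Nat.le_mul_of_pos_right t hpos
      rw [← orb_add, show t + (t * p.2 - t) = 0 + t * p.2 by omega, orb_per' hp.2.1, orb_zero, h]
    have h2 := orb_inj h1
    exact ⟨(t * p.2 - t) % p.2, Nat.mod_lt _ hp.1, by rw [orb_mod hp.2.1]; exact h2.symm⟩

/-- the collections of all loops are collections -/
theorem all_isCol {s : Seq} {D : Set ℂ} {C : ℕ → Finset Edg → Col}
    (h : ∀ n, ∀ F ⊆ s.E n, AllLp (s.δ n) (s.o n) D (s.G n F) (C n F)) : IsCol s D C := by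
  classical
  choose! R h1 h2 h3 using h
  refine ⟨R, fun n F hF => ⟨h3 n F hF, fun p hp => loop_inj (h1 n F hF p hp).2⟩,
    fun L hL _ => Filter.Eventually.of_forall fun n F hF p hp => ⟨fun τ hτ _ =>
      loop_full (h1 n F hF p hp).2 hτ, fun p' hp' hne i _ j _ he hz => hne ?_⟩⟩
  obtain ⟨q, -, hq⟩ := h2 n F hF (orb (s.G n F) p.1 i) (hL hz)
  rw [hq p ⟨hp, i, rfl⟩, hq p' ⟨hp', j, he.symm⟩]

/-- the orbit stays in `D` -/
theorem orb_in {δ : ℝ} {o : ℂ} {D : Set ℂ} {F : Finset Edg}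
    (hF : ∀ e ∈ F, zp δ o (src e) ∈ D ∧ zp δ o (tgt e) ∈ D) {σ : St} (hσ : zp δ o σ.1 ∈ D)
    (k : ℕ) : zp δ o (orb (↑F : Set Edg) σ k).1 ∈ D := by
  induction k with
  | zero => exact hσ
  | succ k ih =>
    rw [orb_succ]
    by_cases he : ae (orb (↑F : Set Edg) σ k) ∈ (↑F : Set Edg)
    · rw [nxt_open he]
      have h1 := hF _ (Finset.mem_coe.1 he)
      rcases pb_ends (orb (↑F : Set Edg) σ k) with ⟨-, h2⟩ | ⟨h2, -⟩
      · rw [← h2]
        exact h1.2
      · rw [← h2]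
        exact h1.1
    · rw [nxt_closed he, p2_rt_fst]
      exact ih

/-- **Existence of the collection.** -/
theorem all_exists {δ : ℝ} (hδ : 0 < δ) {o : ℂ} {D : Set ℂ} (hb : Bornology.IsBounded D)
    (hne : ∃ v : Vtx, zp δ o v ∈ D) {F : Finset Edg}
    (hF : ∀ e ∈ F, zp δ o (src e) ∈ D ∧ zp δ o (tgt e) ∈ D) :
    ∃ L : Col, AllLp δ o D (↑F : Set Edg) L := by
  classical
  set G : Set Edg := (↑F : Set Edg) with hG
  have hper : ∀ σ : St, ∃ N, 0 < N ∧ orb G σ N = σ := fun σ => P17.periodic F σ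
  set per : St → ℕ := fun σ => Nat.find (hper σ) with hperd
  have hloop : ∀ σ, Loop G (σ, per σ) := by
    intro σ
    obtain ⟨h1, h2⟩ := Nat.find_spec (hper σ)
    exact ⟨h1, h2, fun j hj hjN he => Nat.find_min (hper σ) hjN ⟨hj, he⟩⟩
  -- the orbits
  set O : St → Set St := fun σ => {τ | ∃ k, orb G σ k = τ} with hO
  have hOr : ∀ σ, σ ∈ O σ := fun σ => ⟨0, rfl⟩
  have hOs : ∀ σ τ, τ ∈ O σ → O τ = O σ := by
    rintro σ τ ⟨k, rfl⟩
    ext ρ
    constructor
    · rintro ⟨j, rfl⟩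
      exact ⟨j + k, by rw [orb_add]⟩
    · rintro ⟨j, rfl⟩
      have h1 := hloop σ
      have h2 : k ≤ k * per σ := Nat.le_mul_of_pos_right k h1.1
      refine ⟨j + (k * per σ - k), ?_⟩
      rw [← orb_add, show j + (k * per σ - k) + k = j + k * per σ by omega,
        orb_per' h1.2.1]
  have hnes : Nonempty St := ⟨((0, 0), Q4.ne)⟩
  let rep : St → St := fun σ => Classical.epsilon (fun τ => τ ∈ O σ)
  have hrep : ∀ σ, rep σ ∈ O σ := fun σ => Classical.epsilon_spec (p := fun τ => τ ∈ O σ) ⟨σ, hOr σ⟩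
  have hrepe : ∀ σ τ, O σ = O τ → rep σ = rep τ := by
    intro σ τ h
    show Classical.epsilon (fun ρ => ρ ∈ O σ) = Classical.epsilon (fun ρ => ρ ∈ O τ)
    rw [h]
  have hVf : {σ : St | zp δ o σ.1 ∈ D}.Finite := by
    refine Set.Finite.subset ((vert_finite hδ o hb).prod (Set.toFinite (Set.univ : Set Q4))) ?_
    rintro ⟨v, k⟩ hv
    exact ⟨hv, trivial⟩
  set R : Finset (St × ℕ) := hVf.toFinset.image (fun σ => (rep σ, per (rep σ))) with hR
  have hin : ∀ σ : St, zp δ o σ.1 ∈ D → zp δ o (rep σ).1 ∈ D := by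
    intro σ hσ
    obtain ⟨k, hk⟩ := hrep σ
    rw [← hk]
    exact orb_in hF hσ k
  have hRne : R.Nonempty := by
    obtain ⟨v, hv⟩ := hne
    exact ⟨_, Finset.mem_image_of_mem _ (hVf.mem_toFinset.2 (show zp δ o (v, Q4.ne).1 ∈ D from hv))⟩
  refine ⟨⟨⟨{y | ∃ p ∈ R, y = cls (pth δ o G p)}, ?_⟩, ?_⟩, R, ?_, ?_, rfl⟩
  · have : {y | ∃ p ∈ R, y = cls (pth δ o G p)} = (fun p => cls (pth δ o G p)) '' (↑R : Set (St × ℕ)) := by
      ext y
      constructor
      · rintro ⟨p, hp, rfl⟩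
        exact ⟨p, hp, rfl⟩
      · rintro ⟨p, hp, rfl⟩
        exact ⟨p, hp, rfl⟩
    rw [this]
    exact (R.finite_toSet.image _).isCompact
  · obtain ⟨p, hp⟩ := hRne
    exact ⟨_, p, hp, rfl⟩
  · intro p hp
    rw [hR, Finset.mem_image] at hp
    obtain ⟨σ, hσ, rfl⟩ := hp
    rw [Set.Finite.mem_toFinset] at hσ
    exact ⟨hin σ hσ, hloop _⟩
  · intro τ hτ
    refine ⟨(rep τ, per (rep τ)), ⟨Finset.mem_image_of_mem _ (hVf.mem_toFinset.2 hτ), ?_⟩, ?_⟩
    · have h1 := hOs τ (rep τ) (hrep τ)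
      have h2 : τ ∈ O (rep τ) := by
        rw [h1]
        exact hOr τ
      exact h2
    · rintro p' ⟨hp', k, hk⟩
      rw [hR, Finset.mem_image] at hp'
      obtain ⟨σ, -, rfl⟩ := hp'
      have h1 := hOs (rep σ) τ ⟨k, hk⟩
      have h2 := hOs σ (rep σ) (hrep σ)
      have h3 := hrepe τ σ (h1.trans h2)
      rw [h3]

theorem free_ends {s : Seq} {D : Set ℂ} (hs : Free s D) {n : ℕ} {F : Finset Edg}
    (hF : F ⊆ s.E n) : ∀ e ∈ F, zp (s.δ n) (s.o n) (src e) ∈ D ∧ zp (s.δ n) (s.o n) (tgt e) ∈ D := by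
  intro e he
  have h1 := ((hs n).1 e).1 (hF he)
  exact ⟨h1 (left_mem_segment ℝ _ _), h1 (right_mem_segment ℝ _ _)⟩

instance instSepCol : SeparableSpace Col := by
  have : SecondCountableTopology CurveQ := UniformSpace.secondCountable_of_separable CurveQ
  infer_instance

/-- **Relative compactness.** -/
theorem all_compact {s : Seq} {D : Set ℂ} (hb : Bornology.IsBounded D) (hs : Free s D)
    {C : ℕ → Finset Edg → Col}
    (h : ∀ n, ∀ F ⊆ s.E n, AllLp (s.δ n) (s.o n) D (s.G n F) (C n F)) {ψ : ℕ → ℕ}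
    (hψ : StrictMono ψ) : ∃ (φ : ℕ → ℕ) (M : ProbabilityMeasure Col),
      StrictMono φ ∧ Tendsto (fun i => lawC s C (ψ (φ i))) atTop (𝓝 M) := by
  obtain ⟨ρ0, hρ0⟩ := hb.subset_closedBall 0
  set ρ : ℝ := max ρ0 1 with hρ
  have hρp : 0 < ρ := lt_of_lt_of_le one_pos (le_max_right _ _)
  have hsub : D ⊆ Sc ρ 0 := by
    intro x hx
    have h1 := hρ0 hx
    rw [Metric.mem_closedBall, dist_eq_norm] at h1
    have h2 : ‖x - 0‖ ≤ ρ := h1.trans (le_max_left _ _)
    have h3 := Complex.abs_re_le_norm (x - 0)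
    have h4 := Complex.abs_im_le_norm (x - 0)
    rw [Complex.sub_re] at h3
    rw [Complex.sub_im] at h4
    exact ⟨h3.trans h2, h4.trans h2⟩
  obtain ⟨N, hN⟩ := eventually_atTop.1 ((tendsto_order.1 s.lim).2 1 one_pos)
  obtain ⟨φ, M, hφ, hlim⟩ := PRK_gen (fun i => lawC s C (ψ (i + N))) (by
    intro ε hε
    obtain ⟨K, hK, hKt⟩ := loops_tight hρp hε
    have hKq : IsCompact (cls '' K) := hK.image SeparationQuotient.continuous_mk
    have hKc := NonemptyCompacts.isCompact_subsets_of_isCompact hKq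
    refine ⟨_, hKc, fun i => ?_⟩
    set n := ψ (i + N) with hn
    have hnN : N ≤ n := by
      have h1 : i + N ≤ ψ (i + N) := hψ.id_le _
      omega
    unfold lawC
    rw [lawE_apply _ _ hKc.isClosed.measurableSet.compl]
    apply ENNReal.ofReal_le_ofReal
    refine le_trans ?_ (hKt (s.δ n) (s.o n) (s.E n) (s.pos n) (hN n hnN).le)
    unfold PQ
    refine Pr_mono (fun _ => ⟨by norm_num, by norm_num⟩) fun F hF hnot => ?_
    by_contra hcon
    apply hnot
    obtain ⟨R, h1, h2, h3⟩ := h n F hF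
    intro y hy
    rw [h3] at hy
    obtain ⟨p, hp, rfl⟩ := hy
    refine ⟨_, ?_, rfl⟩
    by_contra hnK
    apply hcon
    obtain ⟨h4, h5⟩ := h1 p hp
    rw [(hs n).2 F] at h5 hnK
    exact ⟨p, fun k => hsub (orb_in (free_ends hs hF) h4 k), h5, hnK⟩)
  exact ⟨fun i => φ i + N, M, fun i j hij => by have := hφ hij; simp only; omega, hlim⟩

end Run7.h561.FL
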