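import Pool.Agent.Run7.h561.FL.Stm
import Pool.Agent.H342R3.Tig.CNT
import Pool.Agent.H342R3.Tig.GRD

/-! # Number of strands in a box -/

set_option autoImplicit false

namespace Run7.h561.FL

open H974 H12S Finset H984P H342L H342T H342P H342P.Plain
open Pool.Agent.TH990.FU (zp)

/-- number of strands of the four directions, in the box of radius `m` at `q` -/
noncomputable def NL (q : ℤ × ℤ) (m a : ℕ) (F : Finset Edg) : ℕ :=
  NS (2 * m) a (q.1 - m) (q.2 - m) F + NS (2 * m) a (-q.2 - m) (q.1 - m) (rM F) +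
    NS (2 * m) a (-q.1 - m) (-q.2 - m) (rM (rM F)) +
    NS (2 * m) a (q.2 - m) (-q.1 - m) (rM (rM (rM F)))

theorem nl_bound : ∃ C : ℝ, 0 < C ∧ ∀ (q : ℤ × ℤ) (m a k : ℕ) (S : Finset Edg), 5 ≤ a → 1 ≤ k →
    Pr (fun _ => (1/2:ℝ)) S (fun F => k ≤ NL q m a F) ≤
      C * (((2 * m : ℕ) : ℝ) / a + 1) ^ 2 / k := by
  obtain ⟨C, hC, hcount⟩ := strand_count_sum
  refine ⟨8 * C, by positivity, ?_⟩
  intro q m a k S ha hk
  have hok : Ok (fun _ : Edg => (1/2:ℝ)) := fun _ => ⟨by norm_num, by norm_num⟩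
  set B := 2 * C * (((2 * m : ℕ) : ℝ) / a + 1) ^ 2 with hB
  have e0 : ∀ (b c : ℤ) (g : Finset Edg → Finset Edg) (S' : Finset Edg),
      (∀ A : Finset Edg → Prop, Pr (fun _ => (1/2:ℝ)) S (fun F => A (g F)) =
        Pr (fun _ => (1/2:ℝ)) S' A) →
      Ex (fun _ => (1/2:ℝ)) S (fun F => (NS (2 * m) a b c (g F) : ℝ)) ≤ B := by
    intro b c g S' hg
    have h1 : Ex (fun _ => (1/2:ℝ)) S (fun F => (NS (2 * m) a b c (g F) : ℝ)) =
        ∑ x ∈ Finset.range (2 * m / a + 2) ×ˢ Finset.Icc c (c + ((2 * m : ℕ) : ℤ)),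
          Pr (fun _ => (1/2:ℝ)) S' (fun F => cnt_st a b x F) := by
      rw [Ex_congr (g := fun F => ∑ x ∈ Finset.range (2 * m / a + 2) ×ˢ
        Finset.Icc c (c + ((2 * m : ℕ) : ℤ)),
        ind (cnt_st a b x (g F))) (fun F _ => cnt_NS (2 * m) a b c (g F)), Ex_sum]
      refine Finset.sum_congr rfl fun x _ => ?_
      exact hg (fun F => cnt_st a b x F)
    rw [h1]
    exact cnt_sum hC hcount (2 * m) a ha b c S'
  have x0 := e0 (q.1 - m) (q.2 - m) (fun F => F) S (fun A => rfl)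
  have x1 := e0 (-q.2 - m) (q.1 - m) (fun F => rM F) (rM S) (fun A => (rot_pr _ _ _).symm)
  have x2 := e0 (-q.1 - m) (-q.2 - m) (fun F => rM (rM F)) (rM (rM S)) (fun A => by
    rw [← rot_pr (A := fun F => A (rM F)), ← rot_pr])
  have x3 := e0 (q.2 - m) (-q.1 - m) (fun F => rM (rM (rM F))) (rM (rM (rM S))) (fun A => by
    rw [← rot_pr (A := fun F => A (rM (rM F))), ← rot_pr (A := fun F => A (rM F)), ← rot_pr])
  have hN : Ex (fun _ => (1/2:ℝ)) S (fun F => (NL q m a F : ℝ)) ≤ 4 * B := by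
    have h1 : Ex (fun _ => (1/2:ℝ)) S (fun F => (NL q m a F : ℝ)) =
        Ex (fun _ => (1/2:ℝ)) S (fun F => (NS (2 * m) a (q.1 - m) (q.2 - m) F : ℝ)) +
        Ex (fun _ => (1/2:ℝ)) S (fun F => (NS (2 * m) a (-q.2 - m) (q.1 - m) (rM F) : ℝ)) +
        Ex (fun _ => (1/2:ℝ)) S
          (fun F => (NS (2 * m) a (-q.1 - m) (-q.2 - m) (rM (rM F)) : ℝ)) +
        Ex (fun _ => (1/2:ℝ)) S
          (fun F => (NS (2 * m) a (q.2 - m) (-q.1 - m) (rM (rM (rM F))) : ℝ)) := by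
      rw [← Ex_add, ← Ex_add, ← Ex_add]
      refine Ex_congr fun F _ => ?_
      unfold NL
      push_cast
      ring
    rw [h1]
    linarith
  have hk0 : (0:ℝ) < k := by exact_mod_cast hk
  have hmark : (k:ℝ) * Pr (fun _ => (1/2:ℝ)) S (fun F => k ≤ NL q m a F) ≤
      Ex (fun _ => (1/2:ℝ)) S (fun F => (NL q m a F : ℝ)) := by
    unfold Pr
    rw [← Ex_mul_left]
    refine Ex_mono hok fun F _ => ?_
    by_cases h : k ≤ NL q m a F
    · rw [ind_of h, mul_one]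
      exact_mod_cast h
    · rw [ind_not_of h, mul_zero]
      positivity
  rw [le_div_iff₀ hk0]
  calc Pr (fun _ => (1/2:ℝ)) S (fun F => k ≤ NL q m a F) * k
      = (k:ℝ) * Pr (fun _ => (1/2:ℝ)) S (fun F => k ≤ NL q m a F) := mul_comm _ _
    _ ≤ 4 * B := hmark.trans hN
    _ = 8 * C * (((2 * m : ℕ) : ℝ) / a + 1) ^ 2 := by rw [hB]; ring

/-- The strand inside a piece which ends to the right. -/
theorem right_loc {n a : ℕ} (ha : 1 ≤ a) {b c : ℤ} {F : Finset Edg} {σ : St} {t : ℕ}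
    (hb : b ≤ σ.1.1 ∧ σ.1.1 ≤ b + n)
    (hc : c + (4 * a + 2) ≤ σ.1.2 ∧ σ.1.2 + (4 * a + 2) ≤ c + n)
    (hf : ∀ s < t, ¬ Far σ.1 (4 * a + 2) (orb (↑F) σ s).1)
    (hx : (orb (↑F) σ t).1.1 = σ.1.1 + (4 * a + 2)) :
    ∃ x ∈ (Finset.range (n / a + 2) ×ˢ Finset.Icc c (c + n)), ∃ s' < t,
      orb (↑F) σ s' = st0 (b + x.1 * a) x.2 ∧
      ∃ (Y : ℤ) (T : ℕ), Strand (↑F : Set Edg) (b + x.1 * a) x.2 (b + x.1 * a + 3 * a) Y T := by
  have ha1 : (1:ℤ) ≤ a := by exact_mod_cast ha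
  obtain ⟨i, hi, hA1, hA2⟩ := LS_line (n := n) (a := a) ha (b := b) (x := σ.1.1) hb.1 hb.2
  obtain ⟨y0, Y, T, s0, hs0, hst, hT, hy⟩ := exit_strand2 (F := ↑F) hf hx
    (A := b + (i:ℤ) * a) (X := b + (i:ℤ) * a + 3 * a) hA1 (by omega) (by omega)
  have hT0 : T ≠ 0 := by
    rintro rfl
    have h1 := hst.tip
    rw [orb_zero] at h1
    have h2 := congrArg (fun τ : St => τ.1.1) h1
    simp only [st0] at h2
    omega
  refine ⟨(i, y0), ?_, s0, by omega, hs0, Y, T, hst⟩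
  rw [Finset.mem_product, Finset.mem_Icc]
  have h0 := hy 0 (Nat.zero_le _)
  rw [orb_zero] at h0
  simp only [st0] at h0
  rw [abs_le] at h0
  exact ⟨hi, by simp only; omega, by simp only; omega⟩

/-- The state has a strand of the direction `d`. -/
def Dir4 (q : ℤ × ℤ) (m a : ℕ) (F : Finset Edg) (d : Fin 4) (x : ℕ × ℤ) (τ : St) : Prop :=
  match d with
  | 0 => x ∈ (Finset.range (2 * m / a + 2) ×ˢ Finset.Icc (q.2 - m) (q.2 - m + ((2 * m : ℕ) : ℤ))) ∧
      τ = st0 (q.1 - m + x.1 * a) x.2 ∧ ∃ (Y : ℤ) (T : ℕ),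
        Strand (↑F : Set Edg) (q.1 - m + x.1 * a) x.2 (q.1 - m + x.1 * a + 3 * a) Y T
  | 1 => x ∈ (Finset.range (2 * m / a + 2) ×ˢ Finset.Icc (q.1 - m) (q.1 - m + ((2 * m : ℕ) : ℤ))) ∧
      rS τ = st0 (-q.2 - m + x.1 * a) x.2 ∧ ∃ (Y : ℤ) (T : ℕ),
        Strand (↑(rM F) : Set Edg) (-q.2 - m + x.1 * a) x.2 (-q.2 - m + x.1 * a + 3 * a) Y T
  | 2 => x ∈ (Finset.range (2 * m / a + 2) ×ˢ Finset.Icc (-q.2 - m) (-q.2 - m + ((2 * m : ℕ) : ℤ))) ∧
      rS (rS τ) = st0 (-q.1 - m + x.1 * a) x.2 ∧ ∃ (Y : ℤ) (T : ℕ),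
        Strand (↑(rM (rM F)) : Set Edg) (-q.1 - m + x.1 * a) x.2 (-q.1 - m + x.1 * a + 3 * a) Y T
  | 3 => x ∈ (Finset.range (2 * m / a + 2) ×ˢ Finset.Icc (-q.1 - m) (-q.1 - m + ((2 * m : ℕ) : ℤ))) ∧
      rS (rS (rS τ)) = st0 (q.2 - m + x.1 * a) x.2 ∧ ∃ (Y : ℤ) (T : ℕ),
        Strand (↑(rM (rM (rM F))) : Set Edg) (q.2 - m + x.1 * a) x.2
          (q.2 - m + x.1 * a + 3 * a) Y T

/-- A long piece in the box has a strand. -/
theorem piece {q : ℤ × ℤ} {m a : ℕ} (ha : 1 ≤ a) {F : Finset Edg} {τ : St} {t0 : ℕ}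
    (h1 : |τ.1.1 - q.1| + (4 * a + 2) ≤ m) (h2 : |τ.1.2 - q.2| + (4 * a + 2) ≤ m)
    (hfar : Far τ.1 (4 * a + 2) (orb (↑F) τ t0).1) :
    ∃ (d : Fin 4) (x : ℕ × ℤ), ∃ s' < t0, Dir4 q m a F d x (orb (↑F) τ s') := by
  have ha1 : (1:ℤ) ≤ a := by exact_mod_cast ha
  obtain ⟨t, ht, hf, hex⟩ := first_far2 (by omega) hfar
  have e1 := abs_le.1 (show |τ.1.1 - q.1| ≤ m - (4 * a + 2) by linarith)
  have e2 := abs_le.1 (show |τ.1.2 - q.2| ≤ m - (4 * a + 2) by linarith)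
  rcases hex with h | h | h | h
  · obtain ⟨x, hx, s', hs', hst⟩ := right_loc (n := 2 * m) (b := q.1 - m) (c := q.2 - m) ha
      (by push_cast; omega) (by push_cast; omega) hf h
    exact ⟨0, x, s', by omega, hx, hst⟩
  · obtain ⟨x, hx, s', hs', hst⟩ := right_loc (F := rM (rM (rM F))) (σ := rS (rS (rS τ))) (t := t)
      (n := 2 * m) (b := q.2 - m) (c := -q.1 - m) ha
      (by simp only [rS, rV, Equiv.coe_fn_mk]; push_cast; omega)
      (by simp only [rS, rV, Equiv.coe_fn_mk]; push_cast; omega)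
      (by
        intro u hu
        rw [rot_orb, rot_orb, rot_orb]
        have := hf u hu
        simp only [Far, rS, rV, Equiv.coe_fn_mk] at this ⊢
        omega)
      (by
        rw [rot_orb, rot_orb, rot_orb]
        simp only [rS, rV, Equiv.coe_fn_mk]
        omega)
    rw [rot_orb, rot_orb, rot_orb] at hst
    exact ⟨3, x, s', by omega, hx, hst⟩
  · obtain ⟨x, hx, s', hs', hst⟩ := right_loc (F := rM (rM F)) (σ := rS (rS τ)) (t := t)
      (n := 2 * m) (b := -q.1 - m) (c := -q.2 - m) ha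
      (by simp only [rS, rV, Equiv.coe_fn_mk]; push_cast; omega)
      (by simp only [rS, rV, Equiv.coe_fn_mk]; push_cast; omega)
      (by
        intro u hu
        rw [rot_orb, rot_orb]
        have := hf u hu
        simp only [Far, rS, rV, Equiv.coe_fn_mk] at this ⊢
        omega)
      (by
        rw [rot_orb, rot_orb]
        simp only [rS, rV, Equiv.coe_fn_mk]
        omega)
    rw [rot_orb, rot_orb] at hst
    exact ⟨2, x, s', by omega, hx, hst⟩
  · obtain ⟨x, hx, s', hs', hst⟩ := right_loc (F := rM F) (σ := rS τ) (t := t)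
      (n := 2 * m) (b := -q.2 - m) (c := q.1 - m) ha
      (by simp only [rS, rV, Equiv.coe_fn_mk]; push_cast; omega)
      (by simp only [rS, rV, Equiv.coe_fn_mk]; push_cast; omega)
      (by
        intro u hu
        rw [rot_orb]
        have := hf u hu
        simp only [Far, rS, rV, Equiv.coe_fn_mk] at this ⊢
        omega)
      (by
        rw [rot_orb]
        simp only [rS, rV, Equiv.coe_fn_mk]
        omega)
    rw [rot_orb] at hst
    exact ⟨1, x, s', by omega, hx, hst⟩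

theorem rS_inj : Function.Injective rS := by
  intro x y h
  unfold rS at h
  rw [Prod.mk.injEq] at h
  obtain ⟨h1, h2⟩ := h
  apply Prod.ext (rV.injective h1)
  revert h2
  cases x.2 <;> cases y.2 <;> simp [rQ]

theorem dir4_inj {q : ℤ × ℤ} {m a : ℕ} {F : Finset Edg} {d : Fin 4} {x : ℕ × ℤ} {τ τ' : St}
    (h : Dir4 q m a F d x τ) (h' : Dir4 q m a F d x τ') : τ = τ' := by
  fin_cases d
  · exact h.2.1.trans h'.2.1.symm
  · exact rS_inj (h.2.1.trans h'.2.1.symm)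
  · exact rS_inj (rS_inj (h.2.1.trans h'.2.1.symm))
  · exact rS_inj (rS_inj (rS_inj (h.2.1.trans h'.2.1.symm)))

/-- The number of families with different strands. -/
theorem card_nl {q : ℤ × ℤ} {m a : ℕ} {F : Finset Edg} {ι : Type} (S : Finset ι) (g : ι → St)
    (hg : ∀ p ∈ S, ∀ p' ∈ S, g p = g p' → p = p')
    (h : ∀ p ∈ S, ∃ (d : Fin 4) (x : ℕ × ℤ), Dir4 q m a F d x (g p)) : S.card ≤ NL q m a F := by
  classical
  choose! d x hdx using h
  have key : ∀ (e : Fin 4) (b c : ℤ) (G : Finset Edg),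
      (∀ p ∈ S, d p = e → x p ∈ (Finset.range (2 * m / a + 2) ×ˢ
        Finset.Icc c (c + ((2 * m : ℕ) : ℤ))) ∧ ∃ (Y : ℤ) (T : ℕ),
        Strand (↑G : Set Edg) (b + (x p).1 * a) (x p).2 (b + (x p).1 * a + 3 * a) Y T) →
      (S.filter (fun p => d p = e)).card ≤ NS (2 * m) a b c G := by
    intro e b c G hG
    unfold NS
    refine Finset.card_le_card_of_injOn x (fun p hp => ?_) (fun p hp p' hp' he => ?_)
    · rw [Finset.mem_coe, Finset.mem_filter] at hp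
      rw [Finset.mem_coe, Finset.mem_filter]
      exact hG p hp.1 hp.2
    · rw [Finset.mem_coe, Finset.mem_filter] at hp hp'
      apply hg p hp.1 p' hp'.1
      have h1 := hdx p hp.1
      have h2 := hdx p' hp'.1
      rw [hp.2] at h1
      rw [hp'.2, ← he] at h2
      exact dir4_inj h1 h2
  have k0 := key 0 (q.1 - m) (q.2 - m) F (fun p hp he => by
    have := hdx p hp
    rw [he] at this
    exact ⟨this.1, this.2.2⟩)
  have k1 := key 1 (-q.2 - m) (q.1 - m) (rM F) (fun p hp he => by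
    have := hdx p hp
    rw [he] at this
    exact ⟨this.1, this.2.2⟩)
  have k2 := key 2 (-q.1 - m) (-q.2 - m) (rM (rM F)) (fun p hp he => by
    have := hdx p hp
    rw [he] at this
    exact ⟨this.1, this.2.2⟩)
  have k3 := key 3 (q.2 - m) (-q.1 - m) (rM (rM (rM F))) (fun p hp he => by
    have := hdx p hp
    rw [he] at this
    exact ⟨this.1, this.2.2⟩)
  have hsum : S.card = ∑ e : Fin 4, (S.filter (fun p => d p = e)).card :=
    Finset.card_eq_sum_card_fiberwise (fun p _ => Finset.mem_univ _)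
  rw [hsum, Fin.sum_univ_four]
  unfold NL
  omega

end Run7.h561.FL
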