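import Pool.Agent.Run7.h561.FL.Trn

/-! # Double points of all the interfaces -/

set_option autoImplicit false

namespace Run7.h561.FL

open MeasureTheory Filter Topology TopologicalSpace
open H342L H342T H974 H12S H984P Pool.Agent.W822.PD
open Run7.h561.CC (Seq lawE lawE_apply)
open Run7.h165.GI (Full Itf IsItf law)
open scoped ENNReal

theorem dbl_sub' (f : C(unitInterval, ℂ)) : Dbl f ⊆ ⋃ j : ℕ, DPc (1 / ((j:ℝ) + 1)) f := by
  rintro z ⟨s, t, hst, h1, h2, ⟨u, hu, h3⟩, v, hv, h4⟩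
  have h5 : 0 < min (dist (f u) z) (dist (f v) z) := lt_min (dist_pos.2 h3) (dist_pos.2 h4)
  obtain ⟨j, hj⟩ := exists_nat_one_div_lt h5
  refine Set.mem_iUnion.mpr ⟨j, s, t, hst.le, h1, h2, ⟨u, ⟨hu.1.le, hu.2.le⟩,
    hj.le.trans (min_le_left _ _)⟩, v, ?_, hj.le.trans (min_le_right _ _)⟩
  rcases hv with hv | hv
  · exact Or.inl hv.le
  · exact Or.inr hv.le

/-- The double points in `D` have dimension at most `3 / 4`. -/
def FewDbl (D : Set ℂ) (c : Curve) : Prop := dimH (Dbl c.path ∩ D) ≤ 3 / 4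

theorem one_dbl {s : Seq} {D : Set ℂ} (hD : IsOpen D) (hag : s.Agree D) :
    OneItf s D (FewDbl D) := by
  intro γ hγ φ hφ μ hμ
  have h1 : Itf (Run7.h165.CC.sub s φ hφ) D (fun i => γ (φ i)) :=
    fun L hL hc => hφ.tendsto_atTop.eventually (hγ L hL hc)
  filter_upwards [Run7.h165.GI.t_DBL Pool.Agent.W500.PD.uo Pool.Agent.W347.DPAA.aa
    (Pool.Agent.W571.DPad.ad Pool.Agent.W347.DPAA.aa) hD (Run7.h165.CC.sub_agree hag hφ) h1 hμ]
    with c hc
  have h2 : Dbl c.path ∩ D ⊆ ⋃ i : ℕ, (DPc (1 / ((i : ℝ) + 1)) c.path ∩ D) := by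
    rw [← Set.iUnion_inter]
    exact Set.inter_subset_inter_left _ (dbl_sub' c.path)
  refine (dimH_mono h2).trans ?_
  rw [dimH_iUnion]
  exact iSup_le hc

/-- All the members at once. -/
theorem t_dbl {s : Seq} {D : Set ℂ} (hD : IsOpen D) (hag : s.Agree D)
    {C : ℕ → Finset Edg → Col} (hC : IsCol s D C) {ψ : ℕ → ℕ}
    (hψ : StrictMono ψ) {M : ProbabilityMeasure Col}
    (hM : Tendsto (fun i => lawC s C (ψ i)) atTop (𝓝 M)) :
    ∀ᵐ 𝓛 : Col ∂(M : Measure Col), ∀ c : Curve, cls c ∈ 𝓛 → FewDbl D c := by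
  filter_upwards [transfer hD hag (one_dbl hD hag) hC hψ hM] with 𝓛 h c hc
  by_cases hne : (Dbl c.path ∩ D).Nonempty
  · obtain ⟨z, ⟨s, t, hst, h1, h2, ⟨u, hu, h3⟩, -⟩, hz⟩ := hne
    refine h c hc ⟨s, by rw [h1]; exact hz⟩ ⟨u, s, ?_⟩
    rw [h1]
    exact h3
  · rw [Set.not_nonempty_iff_eq_empty] at hne
    unfold FewDbl
    rw [hne, dimH_empty]
    exact zero_le

end Run7.h561.FL
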