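import Pool.Agent.Run7.h561.FL.Nd2
import Pool.Agent.Run7.h165.GI.Fml

/-! # Closed curves; subsequences -/

set_option autoImplicit false

namespace Run7.h561.FL

open H974 H12S Finset H984P H342L H342T MeasureTheory TopologicalSpace Filter Topology
open Pool.Agent.TH990.FU (zp)
open Run7.h561.CC (Seq lawE lawE_apply)
open Run7.h165.GI (Full Sc Sc_compact orb_inj)
open scoped ENNReal

theorem eval_dist {x : unitInterval} (hx : ∀ φ : unitInterval ≃o unitInterval, φ x = x)
    (c c' : Curve) : dist (c.path x) (c'.path x) ≤ dist c c' := by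
  rw [Curve.dist_def, cdist_eq]
  refine le_ciInf fun φ => ?_
  have h := ContinuousMap.dist_apply_le_dist (f := c.path) (g := rep c'.path φ) x
  rwa [rep_apply, hx] at h

theorem eval_cont {x : unitInterval} (hx : ∀ φ : unitInterval ≃o unitInterval, φ x = x) :
    Continuous (fun c : Curve => c.path x) :=
  (LipschitzWith.of_dist_le_mul (K := 1) (fun c c' => by
    simpa using eval_dist hx c c')).continuous

theorem fix0 (φ : unitInterval ≃o unitInterval) : φ 0 = 0 := φ.map_bot
theorem fix1 (φ : unitInterval ≃o unitInterval) : φ 1 = 1 := φ.map_top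

theorem gap_cont : Continuous (fun c : Curve => c.path 0 - c.path 1) :=
  (eval_cont fix0).sub (eval_cont fix1)

/-- difference of the end points -/
noncomputable def gap : CurveQ → ℂ :=
  SeparationQuotient.lift (fun c : Curve => c.path 0 - c.path 1) fun _ _ h =>
    (h.map gap_cont).eq

theorem gap_cls (c : Curve) : gap (cls c) = c.path 0 - c.path 1 := rfl

/-- closed curves in `S` -/
def Clo (S : Set ℂ) : Set CurveQ := {y | gap y = 0 ∧ (tr y : Set ℂ) ⊆ S}

theorem clo_closed {S : Set ℂ} (hS : IsClosed S) : IsClosed (Clo S) :=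
  (isClosed_singleton.preimage (SeparationQuotient.continuous_lift gap_cont)).inter
    ((NonemptyCompacts.isClosed_subsets_of_isClosed hS).preimage tr_cont)

/-- the path of a loop is closed, and its points are in `D` -/
theorem pth_closed {δ : ℝ} (o : ℂ) {G : Set Edg} {p : St × ℕ} (hp : Loop G p) :
    (pth δ o G p).path 0 = (pth δ o G p).path 1 := by
  obtain ⟨h1, h2, -⟩ := t_POL (fun j => zp δ o (orb G p.1 j).1) p.2 hp.1
  show poly (fun j => zp δ o (orb G p.1 j).1) p.2 0 = poly (fun j => zp δ o (orb G p.1 j).1) p.2 1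
  rw [h1, h2, hp.2.1, orb_zero]

theorem pth_in {s : Seq} {D : Set ℂ} (hs : Free s D) {n : ℕ} {F : Finset Edg} (hF : F ⊆ s.E n)
    {p : St × ℕ} (hp : Loop (s.G n F) p) (hD : zp (s.δ n) (s.o n) p.1.1 ∈ D) :
    Set.range (pth (s.δ n) (s.o n) (s.G n F) p).path ⊆ D := by
  have hr := (t_POL (fun j => zp (s.δ n) (s.o n) (orb (s.G n F) p.1 j).1) p.2 hp.1).2.2.1
  intro x hx
  have hx' : x ∈ Set.range (poly (fun j => zp (s.δ n) (s.o n) (orb (s.G n F) p.1 j).1) p.2) := hx
  rw [hr] at hx'
  simp only [Set.mem_iUnion] at hx'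
  obtain ⟨j, -, h2⟩ := hx'
  have hG : s.G n F = (↑F : Set Edg) := (hs n).2 F
  rw [hG] at h2
  have hin := orb_in (free_ends hs hF) hD j
  rw [orb_succ] at h2
  by_cases he : ae (orb (↑F : Set Edg) p.1 j) ∈ (↑F : Set Edg)
  · rw [nxt_open he] at h2
    have h3 := ((hs n).1 _).1 (hF (Finset.mem_coe.1 he))
    rcases pb_ends (orb (↑F : Set Edg) p.1 j) with ⟨e1, e2⟩ | ⟨e1, e2⟩
    · rw [e1, e2] at h3
      exact h3 h2
    · rw [e1, e2] at h3
      rw [segment_symm] at h3
      exact h3 h2
  · rw [nxt_closed he, p2_rt_fst, segment_same] at h2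
    rw [Set.mem_singleton_iff.1 h2]
    exact hin

/-- Almost surely, all the members of the limit are closed curves in the closure of `D`. -/
theorem t_closed {s : Seq} {D : Set ℂ} (hs : Free s D) {C : ℕ → Finset Edg → Col}
    (h : ∀ n, ∀ F ⊆ s.E n, AllLp (s.δ n) (s.o n) D (s.G n F) (C n F)) {M : ProbabilityMeasure Col}
    (hM : Tendsto (lawC s C) atTop (𝓝 M)) :
    ∀ᵐ 𝓛 : Col ∂(M : Measure Col), ∀ c : Curve, cls c ∈ 𝓛 →
      c.path 0 = c.path 1 ∧ Set.range c.path ⊆ closure D := by
  have hcl := NonemptyCompacts.isClosed_subsets_of_isClosed (clo_closed (S := closure D)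
    isClosed_closure)
  have h0 : (M : Measure Col) {𝓛 : Col | (𝓛 : Set CurveQ) ⊆ Clo (closure D)}ᶜ = 0 := by
    refine le_antisymm ?_ zero_le
    refine (ProbabilityMeasure.le_liminf_measure_open_of_tendsto hM hcl.isOpen_compl).trans ?_
    refine liminf_le_of_frequently_le' (Eventually.frequently (Eventually.of_forall fun n => ?_))
    show (lawE (s.E n) (C n) : Measure Col) _ ≤ _
    rw [lawE_apply _ _ hcl.measurableSet.compl, Run7.h165.CC.pq_false, ENNReal.ofReal_zero]
    intro F hF hnot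
    apply hnot
    obtain ⟨R, h1, -, h3⟩ := h n F hF
    intro y hy
    rw [h3] at hy
    obtain ⟨p, hp, rfl⟩ := hy
    obtain ⟨h4, h5⟩ := h1 p hp
    refine ⟨?_, ?_⟩
    · rw [gap_cls, pth_closed _ h5, sub_self]
    · rw [tr_cls]
      exact (pth_in hs hF h5 h4).trans subset_closure
  rw [ae_iff]
  refine measure_mono_null ?_ h0
  intro L hL hsub
  apply hL
  intro c hc
  obtain ⟨h1, h2⟩ := hsub hc
  rw [gap_cls] at h1
  exact ⟨sub_eq_zero.1 h1, h2⟩

end Run7.h561.FL
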