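import Pool.Agent.Run7.h561.FL.Stm

/-! # Members which cross an annulus are isolated -/

set_option autoImplicit false

namespace Run7.h561.FL

open MeasureTheory Filter Topology TopologicalSpace Metric Set
open H342L H342T H974 H12S H984P
open Run7.h561.CC (Seq lawE lawE_apply)
open scoped ENNReal

/-- the trace -/
noncomputable def tr : CurveQ → NonemptyCompacts ℂ :=
  SeparationQuotient.lift Curve.trace fun _ _ h => (h.map Curve.continuous_trace).eq

theorem tr_cont : Continuous tr := SeparationQuotient.continuous_lift Curve.continuous_trace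

theorem tr_cls (c : Curve) : (tr (cls c) : Set ℂ) = range c.path := rfl

theorem sq_open (r : ℝ) (z : ℂ) : IsOpen (Run7.h561.EC.Sq r z) := by
  unfold Run7.h561.EC.Sq
  have h1 : Continuous fun w : ℂ => |w.re - z.re| := by fun_prop
  have h2 : Continuous fun w : ℂ => |w.im - z.im| := by fun_prop
  exact (isOpen_lt h1 continuous_const).inter (isOpen_lt h2 continuous_const)

/-- outside of the closed square -/
def OutS (r : ℝ) (z : ℂ) : Set ℂ := {w | r < |w.re - z.re|} ∪ {w | r < |w.im - z.im|}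

theorem outS_open (r : ℝ) (z : ℂ) : IsOpen (OutS r z) := by
  have h1 : Continuous fun w : ℂ => |w.re - z.re| := by fun_prop
  have h2 : Continuous fun w : ℂ => |w.im - z.im| := by fun_prop
  exact (isOpen_lt continuous_const h1).union (isOpen_lt continuous_const h2)

/-- the curves which cross the annulus -/
def CrQ (z : ℂ) (r : ℝ) : Set CurveQ :=
  {y | ((tr y : Set ℂ) ∩ Run7.h561.EC.Sq r z).Nonempty ∧
    ((tr y : Set ℂ) ∩ OutS (2 * r) z).Nonempty}

theorem crQ_open (z : ℂ) (r : ℝ) : IsOpen (CrQ z r) :=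
  ((NonemptyCompacts.isOpen_inter_nonempty_of_isOpen (sq_open r z)).preimage tr_cont).inter
    ((NonemptyCompacts.isOpen_inter_nonempty_of_isOpen (outS_open (2 * r) z)).preimage tr_cont)

theorem crQ_crs {δ : ℝ} {o : ℂ} {G : Set Edg} {z : ℂ} {r : ℝ} {p : St × ℕ}
    (h : cls (pth δ o G p) ∈ CrQ z r) : Crs δ o G z r p := by
  obtain ⟨⟨x, hx1, hx2⟩, y, hy1, hy2⟩ := h
  rw [tr_cls] at hx1 hy1
  obtain ⟨t, rfl⟩ := hx1
  obtain ⟨t', rfl⟩ := hy1
  refine ⟨⟨t, hx2⟩, t', fun h => ?_⟩
  rcases hy2 with h' | h'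
  · exact absurd h.1 (not_lt.2 (le_of_lt h'))
  · exact absurd h.2 (not_lt.2 (le_of_lt h'))

/-- at least `k` different members in `O` -/
def Many (O : Set CurveQ) (k : ℕ) : Set Col :=
  {L | ∃ f : Fin k → CurveQ, Function.Injective f ∧ ∀ i, f i ∈ (L : Set CurveQ) ∧ f i ∈ O}

theorem many_open {O : Set CurveQ} (hO : IsOpen O) (k : ℕ) : IsOpen (Many O k) := by
  rw [isOpen_iff_forall_mem_open]
  rintro L ⟨f, hf, hfL⟩
  obtain ⟨U, hU, hd⟩ := (Set.finite_range f).t2_separation
  refine ⟨⋂ i, {L' : Col | ((L' : Set CurveQ) ∩ (U (f i) ∩ O)).Nonempty}, ?_, ?_, ?_⟩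
  · intro L' hL'
    rw [mem_iInter] at hL'
    choose g hg1 hg2 using hL'
    refine ⟨g, fun i j hij => ?_, fun i => ⟨hg1 i, (hg2 i).2⟩⟩
    by_contra hne
    have h1 := hd (mem_range_self i) (mem_range_self j) (fun e => hne (hf e))
    have h2 : g i ∈ U (f j) := by rw [hij]; exact (hg2 j).1
    exact Set.disjoint_left.1 h1 (hg2 i).1 h2
  · exact isOpen_iInter_of_finite fun i =>
      NonemptyCompacts.isOpen_inter_nonempty_of_isOpen ((hU (f i)).2.inter hO)
  · exact mem_iInter.2 fun i => ⟨f i, (hfL i).1, (hU (f i)).1, (hfL i).2⟩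

theorem not_many {O : Set CurveQ} {L : Col} {k : ℕ} (h : L ∉ Many O k) :
    ((L : Set CurveQ) ∩ O).Finite := by
  by_contra hinf
  apply h
  obtain ⟨t, ht, hk⟩ := (show ((L : Set CurveQ) ∩ O).Infinite from hinf).exists_subset_card_eq k
  refine ⟨fun i => t.equivFin.symm (Fin.cast hk.symm i), ?_, fun i => ?_⟩
  · intro i j hij
    have h1 := Subtype.val_injective hij
    have h2 := t.equivFin.symm.injective h1
    exact Fin.cast_injective hk.symm h2
  · exact ht (t.equivFin.symm (Fin.cast hk.symm i)).2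

theorem isolated {O : Set CurveQ} (hO : IsOpen O) {L : Col} (h : ((L : Set CurveQ) ∩ O).Finite)
    {y : CurveQ} (hyO : y ∈ O) :
    ∃ ε : ℝ, 0 < ε ∧ ∀ y' ∈ (L : Set CurveQ), dist y' y < ε → y' = y := by
  have h1 : IsOpen (O \ (((L : Set CurveQ) ∩ O) \ {y})) :=
    hO.sdiff (h.subset Set.sdiff_subset).isClosed
  obtain ⟨ε, hε, hb⟩ := Metric.isOpen_iff.1 h1 y ⟨hyO, fun h2 => h2.2 rfl⟩
  refine ⟨ε, hε, fun y' hy' hd => ?_⟩
  have h2 := hb (Metric.mem_ball.2 hd)
  by_contra hne
  exact h2.2 ⟨⟨hy', h2.1⟩, hne⟩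

/-- Almost surely, finitely many members of the limit cross the annulus. -/
theorem finite_cross (hcnt : S_CNT) {s : Seq} {D : Set ℂ} (hD : IsOpen D) (hag : s.Agree D)
    {C : ℕ → Finset Edg → Col} (hC : IsCol s D C) {M : ProbabilityMeasure Col}
    (hM : Tendsto (lawC s C) atTop (𝓝 M)) {z : ℂ} {r : ℝ} (hr : 0 < r)
    (hz : Run7.h561.EC.Sq (4 * r) z ⊆ D) :
    ∀ᵐ 𝓛 : Col ∂(M : Measure Col), ((𝓛 : Set CurveQ) ∩ CrQ z r).Finite := by
  obtain ⟨R, hR1, hR2⟩ := hC
  obtain ⟨K, hK, hev⟩ := hcnt s D hD hag z r hr hz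
  have hL : closure (Run7.h561.EC.Sq (3 * r) z) ⊆ Run7.h561.EC.Sq (4 * r) z := by
    have hcl : IsClosed {w : ℂ | |w.re - z.re| ≤ 3 * r ∧ |w.im - z.im| ≤ 3 * r} := by
      have h1 : Continuous fun w : ℂ => |w.re - z.re| := by fun_prop
      have h2 : Continuous fun w : ℂ => |w.im - z.im| := by fun_prop
      exact (isClosed_le h1 continuous_const).inter (isClosed_le h2 continuous_const)
    have h3 : closure (Run7.h561.EC.Sq (3 * r) z) ⊆
        {w : ℂ | |w.re - z.re| ≤ 3 * r ∧ |w.im - z.im| ≤ 3 * r} :=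
      closure_minimal (fun w hw => ⟨hw.1.le, hw.2.le⟩) hcl
    intro w hw
    have := h3 hw
    exact ⟨by linarith [this.1], by linarith [this.2]⟩
  have hcomp : IsCompact (closure (Run7.h561.EC.Sq (3 * r) z)) := by
    apply Metric.isCompact_of_isClosed_isBounded isClosed_closure
    refine (Metric.isBounded_ball (x := z) (r := 10 * r)).subset fun w hw => ?_
    have h := hL hw
    rw [Metric.mem_ball, dist_eq_norm]
    refine (Complex.norm_le_abs_re_add_abs_im _).trans_lt ?_
    rw [Complex.sub_re, Complex.sub_im]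
    have h1 := h.1
    have h2 := h.2
    linarith
  have hev2 := hR2 _ (hL.trans hz) hcomp
  have key : ∀ᶠ n in atTop, ∀ k : ℕ, 0 < k →
      (lawC s C n : Measure Col) (Many (CrQ z r) k) ≤ ENNReal.ofReal (K / k) := by
    filter_upwards [hev, hev2] with n h1 h2 k hk
    have hP : (∀ F ⊆ s.E n, ∀ p ∈ R n F, Inj (s.G n F) p ∧ ∀ p' ∈ R n F, p ≠ p' →
        Disj (s.δ n) (s.o n) (s.G n F) (Run7.h561.EC.Sq (3 * r) z) p p') := by
      intro F hF p hp
      refine ⟨(hR1 n F hF).2 p hp, fun p' hp' hne i hi j hj e hm => ?_⟩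
      exact (h2 F hF p hp).2 p' hp' hne i hi j hj e (subset_closure hm)
    have h3 := h1 (R n) hP k hk
    show (lawE (s.E n) (C n) : Measure Col) _ ≤ _
    rw [lawE_apply _ _ (many_open (crQ_open z r) k).measurableSet]
    apply ENNReal.ofReal_le_ofReal
    refine le_trans ?_ h3
    have hok : Ok (fun _ : Edg => (1/2:ℝ)) := fun _ => ⟨by norm_num, by norm_num⟩
    unfold PQ
    refine Pr_mono hok fun F hF h4 => ?_
    obtain ⟨f, hf, hfL⟩ := h4
    have h5 : ∀ i, ∃ p ∈ R n F, f i = cls (pth (s.δ n) (s.o n) (s.G n F) p) := by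
      intro i
      have h6 := (hfL i).1
      rw [(hR1 n F hF).1] at h6
      exact h6
    choose q hq1 hq2 using h5
    have hqi : Function.Injective q := fun i j hij => hf (by rw [hq2, hq2, hij])
    classical
    refine ⟨Finset.univ.image q, ?_, ?_, ?_⟩
    · intro p hp
      obtain ⟨i, -, rfl⟩ := Finset.mem_image.1 hp
      exact hq1 i
    · rw [Finset.card_image_of_injective _ hqi, Finset.card_univ, Fintype.card_fin]
    · intro p hp
      obtain ⟨i, -, rfl⟩ := Finset.mem_image.1 hp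
      apply crQ_crs
      rw [← hq2]
      exact (hfL i).2
  have hbd : ∀ k : ℕ, 0 < k → (M : Measure Col) (Many (CrQ z r) k) ≤ ENNReal.ofReal (K / k) := by
    intro k hk
    refine (ProbabilityMeasure.le_liminf_measure_open_of_tendsto hM
      (many_open (crQ_open z r) k)).trans ?_
    refine liminf_le_of_frequently_le' (Eventually.frequently ?_)
    filter_upwards [key] with n hn
    exact hn k hk
  have hnull : (M : Measure Col) (⋂ k : ℕ, Many (CrQ z r) (k + 1)) = 0 := by
    refine le_antisymm (ENNReal.le_of_forall_pos_le_add fun ε hε _ => ?_) zero_le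
    rw [zero_add]
    obtain ⟨k, hk⟩ := exists_nat_gt (K / (ε : ℝ))
    have hε' : (0 : ℝ) < ε := hε
    refine (measure_mono (iInter_subset _ k)).trans ((hbd (k + 1) (Nat.succ_pos k)).trans ?_)
    rw [← ENNReal.ofReal_coe_nnreal]
    apply ENNReal.ofReal_le_ofReal
    rw [div_lt_iff₀ hε'] at hk
    rw [div_le_iff₀ (by positivity)]
    push_cast
    nlinarith
  rw [ae_iff]
  refine measure_mono_null (fun L hL => mem_iInter.2 fun k => ?_) hnull
  by_contra hcon
  exact hL (not_many hcon)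

end Run7.h561.FL
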