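import Pool.Agent.H974R2.FourArm
import Pool.Agent.H973R2.Arm1
import Pool.Agent.H984R3.Per.Extent
import Pool.Agent.H984R3.Per.PerBig

/-! # Loops in small boxes -/

set_option autoImplicit false

namespace Run7.h561.FL

open H974 H973 Finset H984P H342P

/-- the box of radius `r` at `q` -/
noncomputable def Bq (q : ℤ × ℤ) (r : ℕ) : Finset Edg := RE (q.1 - r) (q.1 + r) (q.2 - r) (q.2 + r)

/-- a crossing of the box of radius `m`, which is not connected to distance `3 m` -/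
def Trp (q : ℤ × ℤ) (m : ℕ) (F : Finset Edg) : Prop :=
  LRc (q.1 - m) (q.1 + m) (q.2 - m) (q.2 + m) (F ∩ Bq q m) ∧
    ¬ Cr q.1 q.2 m (↑(F ∩ (Bq q (3 * m) \ Bq q m)) : Set Edg)

theorem Bq_mono {q : ℤ × ℤ} {m n : ℕ} (h : m ≤ n) : Bq q m ⊆ Bq q n := by
  have h' : (m : ℤ) ≤ n := by exact_mod_cast h
  exact RE_subset (by omega) (by omega) (by omega) (by omega)

theorem trp_congr {q : ℤ × ℤ} {m : ℕ} {F G : Finset Edg}
    (h : F ∩ Bq q (3 * m) = G ∩ Bq q (3 * m)) : Trp q m F ↔ Trp q m G := by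
  have key : ∀ T ⊆ Bq q (3 * m), F ∩ T = G ∩ T := by
    intro T hT
    have h1 : ∀ H : Finset Edg, H ∩ T = (H ∩ Bq q (3 * m)) ∩ T := by
      intro H
      rw [Finset.inter_assoc, Finset.inter_eq_right.2 hT]
    rw [h1 F, h1 G, h]
  unfold Trp
  rw [key (Bq q m) (Bq_mono (by omega)), key _ Finset.sdiff_subset]

/-- the last exit from a box -/
theorem last_exit {G : Set Edg} {q : ℤ × ℤ} {m : ℕ} {u w : Vtx}
    (hu : inR (q.1 - m) (q.1 + m) (q.2 - m) (q.2 + m) u) (h : Reach G u w) :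
    ∃ u', inR (q.1 - m) (q.1 + m) (q.2 - m) (q.2 + m) u' ∧
      Reach (G \ (↑(Bq q m) : Set Edg)) u' w := by
  induction h with
  | refl => exact ⟨u, hu, Reach.refl _ _⟩
  | @tail w w' _ hs ih =>
    obtain ⟨e, heG, hcase⟩ := hs
    by_cases he : e ∈ Bq q m
    · obtain ⟨h1, h2⟩ := H973.mem_RE_ends he
      refine ⟨w', ?_, Reach.refl _ _⟩
      rcases hcase with ⟨-, h3⟩ | ⟨h3, -⟩
      · rw [← h3]; exact h2
      · rw [← h3]; exact h1
    · obtain ⟨u', h1, h2⟩ := ih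
      exact ⟨u', h1, h2.trans (Adj.reach ⟨e, ⟨heG, fun h => he (Finset.mem_coe.1 h)⟩, hcase⟩)⟩

/-- **The interface around a trapped crossing.** -/
theorem trapped {q : ℤ × ℤ} {m : ℕ} (hm : 1 ≤ m) {F : Finset Edg} (h : Trp q m F) :
    ∃ σ : St, (∀ k, inR (q.1 - 3 * m) (q.1 + 3 * m) (q.2 - 3 * m) (q.2 + 3 * m)
      (orb (↑F : Set Edg) σ k).1) ∧ ∃ k, σ.1.1 + 2 * m ≤ (orb (↑F : Set Edg) σ k).1.1 := by
  have hm' : (1:ℤ) ≤ m := by exact_mod_cast hm
  obtain ⟨⟨y, y', hy, hy', hr⟩, hno⟩ := h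
  have hr' : Reach (↑F : Set Edg) (q.1 - m, y) (q.1 + m, y') := by
    refine hr.mono ?_
    rintro e ⟨he, -⟩
    rw [Finset.mem_coe, Finset.mem_inter] at he
    exact he.1
  have hin : ∀ w, Reach (↑F : Set Edg) (q.1 - m, y) w →
      inR (q.1 - 3 * m) (q.1 + 3 * m) (q.2 - 3 * m) (q.2 + 3 * m) w := by
    intro w hw
    by_contra hcon
    obtain ⟨w', h1, h2, h3⟩ := first_exit (a := q.1 - 3 * m) (b := q.1 + 3 * m)
      (c := q.2 - 3 * m) (d := q.2 + 3 * m) (by unfold inR; simp only; omega) hw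
      (by unfold inR at hcon; omega)
    obtain ⟨u', h4, h5⟩ := last_exit (q := q) (m := m) (by unfold inR; simp only; omega) h3
    apply hno
    refine ⟨u', w', h4, by omega, h5.mono ?_⟩
    rintro e ⟨⟨he1, he2⟩, he3⟩
    rw [Finset.mem_coe, Finset.mem_inter, Finset.mem_sdiff]
    refine ⟨Finset.mem_coe.1 he1, ?_, fun h => he3 (Finset.mem_coe.2 h)⟩
    have := Finset.mem_coe.1 he2
    unfold Bq
    push_cast
    exact this
  have hfin : {w | Reach (↑F : Set Edg) (q.1 - m, y) w}.Finite := by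
    refine Set.Finite.subset ((Set.finite_Icc (q.1 - 3 * m) (q.1 + 3 * m)).prod
      (Set.finite_Icc (q.2 - 3 * m) (q.2 + 3 * m))) ?_
    intro w hw
    have h1 := hin w hw
    exact ⟨h1.1, h1.2⟩
  obtain ⟨v0, hv0, hmin⟩ := Set.exists_min_image _ (fun w : Vtx => w.1) hfin
    ⟨_, Reach.refl _ _⟩
  have hv0' : Reach (↑F : Set Edg) (q.1 - m, y) v0 := hv0
  have hleft : ∀ w, Reach (↑F : Set Edg) v0 w → v0.1 ≤ w.1 := by
    intro w hw
    exact hmin w (hv0'.trans hw)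
  have h0 : v0.1 ≤ q.1 - m := hmin (q.1 - m, y) (Reach.refl _ _)
  have h1 : Reach (↑F : Set Edg) v0 (q.1 + m, y') := hv0'.symm.trans hr'
  obtain ⟨⟨t, ht⟩, -⟩ := orb_extent (σ := (v0, Q4.nw)) rfl hleft h1
  refine ⟨(v0, Q4.nw), fun k => hin _ (hv0'.trans (pb_reach _ (v0, Q4.nw) k)), t, ?_⟩
  simp only at ht ⊢
  omega

/-- the constant -/
noncomputable def c0 : ℝ := 1 / 2 * kap

theorem c0_pos : 0 < c0 := by have := kap_pos; unfold c0; positivity
theorem c0_le : c0 ≤ 1 := by have := kap_le; unfold c0; linarith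

theorem pr_trp {q : ℤ × ℤ} {m : ℕ} (hm : 5 ≤ m) {S : Finset Edg} (hS : Bq q (3 * m) ⊆ S) :
    c0 ≤ Pr (fun _ => (1/2:ℝ)) S (Trp q m) := by
  have hok : Ok (fun _ : Edg => (1/2:ℝ)) := fun _ => ⟨by norm_num, by norm_num⟩
  have hm' : (5:ℤ) ≤ m := by exact_mod_cast hm
  have h1 : Pr (fun _ => (1/2:ℝ)) S (Trp q m) =
      Pr (fun _ => (1/2:ℝ)) (Bq q m) (LRc (q.1 - m) (q.1 + m) (q.2 - m) (q.2 + m)) *
      Pr (fun _ => (1/2:ℝ)) (Bq q (3 * m) \ Bq q m)
        (fun F => ¬ Cr q.1 q.2 m (↑F : Set Edg)) := by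
    rw [← Pr_indep' (U := S) (S := Bq q m) (T := Bq q (3 * m) \ Bq q m)
      ((Bq_mono (by omega)).trans hS) (Finset.sdiff_subset.trans hS) Finset.disjoint_sdiff
      (LRc (q.1 - m) (q.1 + m) (q.2 - m) (q.2 + m)) (fun F => ¬ Cr q.1 q.2 m (↑F : Set Edg))]
    rfl
  have h2 : (1/2 : ℝ) ≤
      Pr (fun _ => (1/2:ℝ)) (Bq q m) (LRc (q.1 - m) (q.1 + m) (q.2 - m) (q.2 + m)) := by
    rw [pr_LRc (1/2) (S := Bq q m) (a := q.1 - m) (b := q.1 + m) (c := q.2 - m) (d := q.2 + m)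
      LRE_subset_RE]
    have h3 := hh_half (2 * m) (by omega)
    have h4 := hh_mono (q := 1/2) (by norm_num) (by norm_num) (w := 2 * (m:ℤ) + 1)
      (w' := 2 * m) (h := 2 * m) (h' := 2 * m) (by omega) (by omega) le_rfl
    rw [h3] at h4
    rw [show q.1 + (m:ℤ) - (q.1 - m) = 2 * m by ring, show q.2 + (m:ℤ) - (q.2 - m) = 2 * m by ring]
    exact h4
  have h3 : kap ≤ Pr (fun _ => (1/2:ℝ)) (Bq q (3 * m) \ Bq q m)
        (fun F => ¬ Cr q.1 q.2 m (↑F : Set Edg)) := by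
    rw [Pr_not]
    have := pr_Cr hm q.1 q.2 (Bq q (3 * m) \ Bq q m)
    linarith
  rw [h1]
  have := kap_pos
  unfold c0
  exact mul_le_mul h2 h3 this.le (by linarith)

/-- **Many disjoint boxes.** -/
theorem pr_none {m : ℕ} (hm : 5 ≤ m) (q : ℕ → ℤ × ℤ)
    (hq : ∀ i j, i < j → Disjoint (Bq (q i) (3 * m)) (Bq (q j) (3 * m))) (k : ℕ) :
    ∀ S : Finset Edg, (∀ i < k, Bq (q i) (3 * m) ⊆ S) →
      Pr (fun _ => (1/2:ℝ)) S (fun F => ∀ i < k, ¬ Trp (q i) m F) ≤ (1 - c0) ^ k := by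
  have hok : Ok (fun _ : Edg => (1/2:ℝ)) := fun _ => ⟨by norm_num, by norm_num⟩
  induction k with
  | zero =>
    intro S _
    rw [pow_zero]
    exact Pr_le_one hok _ _
  | succ k ih =>
    intro S hS
    have hT : Bq (q k) (3 * m) ⊆ S := hS k (by omega)
    have hsub : ∀ i < k, Bq (q i) (3 * m) ⊆ S \ Bq (q k) (3 * m) := by
      intro i hi e he
      rw [Finset.mem_sdiff]
      exact ⟨hS i (by omega) he, Finset.disjoint_left.1 (hq i k hi) he⟩
    have h1 : Pr (fun _ => (1/2:ℝ)) S (fun F => ∀ i < k + 1, ¬ Trp (q i) m F) =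
        Pr (fun _ => (1/2:ℝ)) S (fun F => (∀ i < k, ¬ Trp (q i) m (F ∩ (S \ Bq (q k) (3 * m)))) ∧
          ¬ Trp (q k) m (F ∩ Bq (q k) (3 * m))) := by
      apply Pr_congr
      intro F _
      have e1 : ∀ i < k, (Trp (q i) m (F ∩ (S \ Bq (q k) (3 * m))) ↔ Trp (q i) m F) := by
        intro i hi
        apply trp_congr
        rw [Finset.inter_assoc, Finset.inter_eq_right.2 (hsub i hi)]
      have e2 : Trp (q k) m (F ∩ Bq (q k) (3 * m)) ↔ Trp (q k) m F := by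
        apply trp_congr
        rw [Finset.inter_assoc, Finset.inter_self]
      constructor
      · intro h
        exact ⟨fun i hi h' => h i (by omega) ((e1 i hi).1 h'), fun h' => h k (by omega) (e2.1 h')⟩
      · rintro ⟨h2, h3⟩ i hi h'
        rcases Nat.lt_succ_iff_lt_or_eq.1 hi with h4 | h4
        · exact h2 i h4 ((e1 i h4).2 h')
        · rw [h4] at h'
          exact h3 (e2.2 h')
    rw [h1, Pr_indep' Finset.sdiff_subset hT Finset.sdiff_disjoint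
      (fun F => ∀ i < k, ¬ Trp (q i) m F) (fun F => ¬ Trp (q k) m F), pow_succ]
    have h2 := ih (S \ Bq (q k) (3 * m)) hsub
    have h3 : Pr (fun _ => (1/2:ℝ)) (Bq (q k) (3 * m)) (fun F => ¬ Trp (q k) m F) ≤ 1 - c0 := by
      rw [Pr_not]
      have := pr_trp hm (q := q k) (Finset.Subset.refl (Bq (q k) (3 * m)))
      linarith
    exact mul_le_mul h2 h3 (Pr_nonneg hok _ _) (pow_nonneg (by linarith [c0_le]) _)

end Run7.h561.FL
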