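import Pool.Agent.Run7.h561.FL.Nd1
import Pool.Agent.Run7.h561.FL.All

/-! # The limit has non-constant loops everywhere -/

set_option autoImplicit false

namespace Run7.h561.FL

open H974 H12S Finset H984P H342L H342T MeasureTheory TopologicalSpace Filter Topology
open Pool.Agent.TH990.FU (zp)
open Run7.h561.CC (Seq lawE lawE_apply)
open Run7.h165.GI (Full Sc Sc_compact orb_inj)
open Run7.h561.EC (orb_per orb_per' orb_mod)
open scoped ENNReal

/-- curves in `S` with two points at distance `η` -/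
def ZZ (S : Set ℂ) (η : ℝ) : Set CurveQ :=
  {y | (tr y : Set ℂ) ⊆ S ∧ ∃ a ∈ (tr y : Set ℂ), ∃ b ∈ (tr y : Set ℂ), η ≤ dist a b}

theorem zz_closed {S : Set ℂ} (hS : IsClosed S) {η : ℝ} : IsClosed (ZZ S η) := by
  have h1 : IsClosed {y : CurveQ | (tr y : Set ℂ) ⊆ S} :=
    (NonemptyCompacts.isClosed_subsets_of_isClosed hS).preimage tr_cont
  -- the curves with two points at distance `η`
  have h2 : ZZ S η = {y : CurveQ | (tr y : Set ℂ) ⊆ S} ∩
      tr ⁻¹' {K : NonemptyCompacts ℂ | ∃ a ∈ (K : Set ℂ), ∃ b ∈ (K : Set ℂ), η ≤ dist a b} := rfl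
  rw [h2]
  refine h1.inter (IsClosed.preimage tr_cont ?_)
  rw [← isOpen_compl_iff, isOpen_iff_forall_mem_open]
  intro K hK
  have hK' : ∀ a ∈ (K : Set ℂ), ∀ b ∈ (K : Set ℂ), dist a b < η := by
    intro a ha b hb
    by_contra hcon
    exact hK ⟨a, ha, b, hb, not_lt.1 hcon⟩
  -- the largest distance
  have hcomp : IsCompact ((K : Set ℂ) ×ˢ (K : Set ℂ)) := K.isCompact.prod K.isCompact
  obtain ⟨⟨a0, b0⟩, ⟨ha0, hb0⟩, hmax⟩ := hcomp.exists_isMaxOn
    (K.nonempty.prod K.nonempty) (f := fun x : ℂ × ℂ => dist x.1 x.2) (by fun_prop)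
  set ε : ℝ := (η - dist a0 b0) / 2 with hε
  have hε0 : 0 < ε := by
    have := hK' a0 ha0 b0 hb0
    rw [hε]
    linarith
  refine ⟨{K' : NonemptyCompacts ℂ | (K' : Set ℂ) ⊆ Metric.thickening ε (K : Set ℂ)}, ?_,
    NonemptyCompacts.isOpen_subsets_of_isOpen Metric.isOpen_thickening,
    Metric.self_subset_thickening hε0 _⟩
  rintro K' hK1 ⟨a, ha, b, hb, hab⟩
  obtain ⟨a', ha', h3⟩ := Metric.mem_thickening_iff.1 (hK1 ha)
  obtain ⟨b', hb', h4⟩ := Metric.mem_thickening_iff.1 (hK1 hb)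
  have h5 : dist a' b' ≤ dist a0 b0 := hmax (show (a', b') ∈ (K : Set ℂ) ×ˢ (K : Set ℂ) from
    ⟨ha', hb'⟩)
  have h6 : dist a b ≤ dist a a' + dist a' b' + dist b' b := dist_triangle4 _ _ _ _
  rw [dist_comm b' b] at h6
  have h7 : dist a b < η := by
    have : 2 * ε = η - dist a0 b0 := by rw [hε]; ring
    linarith
  linarith

/-- the range of the path of a loop -/
theorem loop_range {δ : ℝ} (hδ : 0 < δ) (o : ℂ) {G : Set Edg} {p : St × ℕ} (hp : Loop G p)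
    {σ : St} {k0 : ℕ} (hσ : orb G p.1 k0 = σ) :
    (∀ k, ∃ t, (pth δ o G p).path t = zp δ o (orb G σ k).1) ∧
    ∀ t, ∃ k, |((pth δ o G p).path t).re - (zp δ o (orb G σ k).1).re| ≤ δ ∧
      |((pth δ o G p).path t).im - (zp δ o (orb G σ k).1).im| ≤ δ := by
  constructor
  · intro k
    obtain ⟨s, hs, -⟩ := Run7.h165.GI.poly_node (fun j => zp δ o (orb G p.1 j).1) hp.1
      (Nat.mod_lt (k + k0) hp.1)
    refine ⟨s, ?_⟩
    show poly (fun j => zp δ o (orb G p.1 j).1) p.2 s = _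
    rw [hs]
    rw [orb_mod hp.2.1, orb_add, hσ]
  · intro t
    obtain ⟨j, h1, h2⟩ := pth_near' hδ o G hp.1 t
    refine ⟨j + (k0 * p.2 - k0), ?_⟩
    have h3 : k0 ≤ k0 * p.2 := Nat.le_mul_of_pos_right k0 hp.1
    have h4 : orb G σ (j + (k0 * p.2 - k0)) = orb G p.1 j := by
      rw [← hσ, ← orb_add, show j + (k0 * p.2 - k0) + k0 = j + k0 * p.2 by omega,
        orb_per' hp.2.1]
    rw [h4]
    exact ⟨h1, h2⟩

/-- the boxes -/
noncomputable def qi (δ : ℝ) (o z : ℂ) (m : ℕ) (i : ℕ) : ℤ × ℤ :=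
  (⌊(z.re - o.re) / δ⌋ + 7 * m * i, ⌊(z.im - o.im) / δ⌋)

theorem qi_disj {δ : ℝ} {o z : ℂ} {m : ℕ} (hm : 1 ≤ m) (i j : ℕ) (h : i < j) :
    Disjoint (Bq (qi δ o z m i) (3 * m)) (Bq (qi δ o z m j) (3 * m)) := by
  rw [Finset.disjoint_left]
  intro e h1 h2
  have h3 := (H973.mem_RE_ends h1).1
  have h4 := (H973.mem_RE_ends h2).1
  obtain ⟨⟨a1, a2⟩, -⟩ := h3
  obtain ⟨⟨b1, b2⟩, -⟩ := h4
  unfold qi at a1 a2 b1 b2
  push_cast at a1 a2 b1 b2
  have hm' : (1:ℤ) ≤ m := by exact_mod_cast hm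
  have hij : (i : ℤ) + 1 ≤ j := by exact_mod_cast h
  have h5 : 7 * (m : ℤ) * (i + 1) ≤ 7 * m * j := by gcongr
  nlinarith

/-- positions in the boxes -/
theorem qi_pos {δ : ℝ} (hδ : 0 < δ) {o z : ℂ} {m k i : ℕ} (hi : i < k) {v : Vtx}
    (h : inR ((qi δ o z m i).1 - 3 * m) ((qi δ o z m i).1 + 3 * m) ((qi δ o z m i).2 - 3 * m)
      ((qi δ o z m i).2 + 3 * m) v) :
    |(zp δ o v).re - z.re| ≤ δ * (10 * m * k + 1) ∧ |(zp δ o v).im - z.im| ≤ δ * (10 * m * k + 1) := by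
  obtain ⟨⟨a1, a2⟩, b1, b2⟩ := h
  simp only [qi] at a1 a2 b1 b2
  have hk : (i : ℤ) + 1 ≤ k := by exact_mod_cast hi
  have hm0 : (0 : ℤ) ≤ m := by positivity
  have e1 : 7 * (m : ℤ) * i + 3 * m ≤ 10 * m * k := by nlinarith
  have e2 : 3 * (m : ℤ) ≤ 10 * m * k := by nlinarith
  have e3 : (0 : ℤ) ≤ 7 * m * i := by positivity
  have c1 : |v.1 - ⌊(z.re - o.re) / δ⌋| ≤ 10 * m * k := by rw [abs_le]; constructor <;> omega
  have c2 : |v.2 - ⌊(z.im - o.im) / δ⌋| ≤ 10 * m * k := by rw [abs_le]; constructor <;> omega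
  have f1 : |((v.1 : ℝ) - ⌊(z.re - o.re) / δ⌋)| ≤ 10 * m * k := by exact_mod_cast c1
  have f2 : |((v.2 : ℝ) - ⌊(z.im - o.im) / δ⌋)| ≤ 10 * m * k := by exact_mod_cast c2
  have g1 : |δ * ((v.1 : ℝ) - ⌊(z.re - o.re) / δ⌋)| ≤ δ * (10 * m * k) := by
    rw [abs_mul, abs_of_pos hδ]
    gcongr
  have g2 : |δ * ((v.2 : ℝ) - ⌊(z.im - o.im) / δ⌋)| ≤ δ * (10 * m * k) := by
    rw [abs_mul, abs_of_pos hδ]
    gcongr
  have d1 := coord hδ z.re o.re v.1
  have d2 := coord hδ z.im o.im v.2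
  have e1 : (zp δ o v).re = o.re + δ * v.1 := rfl
  have e2 : (zp δ o v).im = o.im + δ * v.2 := rfl
  rw [abs_le] at d1 d2 g1 g2
  constructor
  · rw [e1, abs_le]
    constructor <;> linarith
  · rw [e2, abs_le]
    constructor <;> linarith

/-- **Non-constant loops in every small square.** -/
theorem one_square {s : Seq} {D : Set ℂ} (hD : IsOpen D) (hs : Free s D)
    {C : ℕ → Finset Edg → Col}
    (h : ∀ n, ∀ F ⊆ s.E n, AllLp (s.δ n) (s.o n) D (s.G n F) (C n F)) {M : ProbabilityMeasure Col}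
    (hM : Tendsto (lawC s C) atTop (𝓝 M)) {z : ℂ} {r : ℝ} (hr : 0 < r) (hz : Sc r z ⊆ D) :
    ∀ᵐ 𝓛 : Col ∂(M : Measure Col), ∃ y ∈ (𝓛 : Set CurveQ), ∃ η : ℝ, 0 < η ∧ y ∈ ZZ (Sc r z) η := by
  have hScl : IsClosed (Sc r z) := (Sc_compact r z).isClosed
  have hag := free_agree hD hs
  have key : ∀ k : ℕ, 0 < k → ∀ᶠ n in atTop, (lawC s C n : Measure Col)
      {𝓛 : Col | (𝓛 : Set CurveQ) ⊆ (ZZ (Sc r z) (r / (20 * k)))ᶜ} ≤
        ENNReal.ofReal ((1 - c0) ^ k) := by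
    intro k hk
    have hkR : (1:ℝ) ≤ k := by exact_mod_cast hk
    have hsm : ∀ᶠ n in atTop, s.δ n < r / (200 * k) := (tendsto_order.1 s.lim).2 _ (by positivity)
    filter_upwards [hsm, hag _ hz (Sc_compact r z)] with n hn hagn
    have hδ := s.pos n
    set δ := s.δ n with hδdef
    set o := s.o n with ho
    set m : ℕ := ⌊r / (20 * k * δ)⌋₊ with hm
    have hk0 : (0:ℝ) < k := by linarith
    have hδk : δ * (200 * k) < r := by
      rwa [lt_div_iff₀ (by positivity)] at hn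
    have hM5 : (10:ℝ) ≤ r / (20 * k * δ) := by
      rw [le_div_iff₀ (by positivity)]
      linarith
    have hm5 : 5 ≤ m := by
      rw [hm, Nat.le_floor_iff (by positivity)]
      push_cast
      linarith
    have hfl1 : (m : ℝ) ≤ r / (20 * k * δ) := Nat.floor_le (by positivity)
    have hfl2 : r / (20 * k * δ) < m + 1 := Nat.lt_floor_add_one _
    rw [le_div_iff₀ (by positivity)] at hfl1
    rw [div_lt_iff₀ (by positivity)] at hfl2
    have hδr : δ ≤ r / 200 := by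
      rw [le_div_iff₀ (by norm_num)]
      nlinarith
    -- positions
    have hpos : ∀ i < k, ∀ v : Vtx, inR ((qi δ o z m i).1 - 3 * m) ((qi δ o z m i).1 + 3 * m)
        ((qi δ o z m i).2 - 3 * m) ((qi δ o z m i).2 + 3 * m) v →
        |(zp δ o v).re - z.re| ≤ r / 2 + δ ∧ |(zp δ o v).im - z.im| ≤ r / 2 + δ := by
      intro i hi v hv
      obtain ⟨h1, h2⟩ := qi_pos hδ hi hv
      have h3 : δ * (10 * m * k + 1) ≤ r / 2 + δ := by nlinarith
      exact ⟨h1.trans h3, h2.trans h3⟩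
    have hbox : ∀ i < k, Bq (qi δ o z m i) (3 * m) ⊆ s.E n := by
      intro i hi e he
      have he' : e ∈ RE ((qi δ o z m i).1 - 3 * m) ((qi δ o z m i).1 + 3 * m)
          ((qi δ o z m i).2 - 3 * m) ((qi δ o z m i).2 + 3 * m) := by
        unfold Bq at he
        push_cast at he
        exact he
      obtain ⟨i1, i2⟩ := H973.mem_RE_ends he'
      obtain ⟨a1, a2⟩ := hpos i hi _ i1
      obtain ⟨b1, b2⟩ := hpos i hi _ i2
      exact (hagn e ⟨by linarith, by linarith⟩ ⟨by linarith, by linarith⟩).1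
    show (lawE (s.E n) (C n) : Measure Col) _ ≤ _
    have hmeas : MeasurableSet {𝓛 : Col | (𝓛 : Set CurveQ) ⊆ (ZZ (Sc r z) (r / (20 * k)))ᶜ} :=
      (NonemptyCompacts.isOpen_subsets_of_isOpen (zz_closed hScl).isOpen_compl).measurableSet
    rw [lawE_apply _ _ hmeas]
    apply ENNReal.ofReal_le_ofReal
    refine le_trans ?_ (pr_none hm5 (qi δ o z m) (qi_disj (by omega)) k (s.E n) hbox)
    unfold PQ
    refine Pr_mono (fun _ => ⟨by norm_num, by norm_num⟩) fun F hF hsub i hi htr => ?_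
    obtain ⟨σ, hσ1, k1, hσ2⟩ := trapped (by omega) htr
    obtain ⟨R, h1, h2, h3⟩ := h n F hF
    have hG : s.G n F = (↑F : Set Edg) := (hs n).2 F
    have hσD : zp δ o σ.1 ∈ D := by
      obtain ⟨a1, a2⟩ := hpos i hi _ (hσ1 0)
      rw [orb_zero] at a1 a2
      exact hz ⟨by linarith, by linarith⟩
    obtain ⟨p, ⟨hp, k0, hk0'⟩, -⟩ := h2 σ hσD
    have hlp := (h1 p hp).2
    rw [hG] at hlp hk0'
    obtain ⟨h4, h5⟩ := loop_range hδ o hlp hk0'
    have hmem : cls (pth δ o (s.G n F) p) ∈ (C n F : Set CurveQ) := by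
      rw [h3]
      exact ⟨p, hp, rfl⟩
    refine hsub hmem ?_
    rw [hG]
    refine ⟨?_, ?_⟩
    · rw [tr_cls]
      rintro _ ⟨t, rfl⟩
      obtain ⟨k2, e1, e2⟩ := h5 t
      obtain ⟨a1, a2⟩ := hpos i hi _ (hσ1 k2)
      rw [abs_le] at e1 e2 a1 a2
      constructor
      · rw [abs_le]
        constructor <;> linarith
      · rw [abs_le]
        constructor <;> linarith
    · obtain ⟨t1, ht1⟩ := h4 0
      obtain ⟨t2, ht2⟩ := h4 k1
      refine ⟨_, ⟨t1, rfl⟩, _, ⟨t2, rfl⟩, ?_⟩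
      rw [ht1, ht2, orb_zero, dist_comm, dist_eq_norm]
      refine le_trans ?_ (Complex.abs_re_le_norm _)
      rw [Complex.sub_re]
      show _ ≤ |o.re + δ * ((orb (↑F : Set Edg) σ k1).1.1 : ℝ) - (o.re + δ * (σ.1.1 : ℝ))|
      have h6 : (σ.1.1 : ℝ) + 2 * m ≤ ((orb (↑F : Set Edg) σ k1).1.1 : ℝ) := by exact_mod_cast hσ2
      refine le_trans ?_ (le_abs_self _)
      have h7 : r / (20 * k) ≤ δ * (2 * m) := by
        rw [div_le_iff₀ (by positivity)]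
        nlinarith
      nlinarith
  have hnull : (M : Measure Col) (⋂ k : ℕ,
      {𝓛 : Col | (𝓛 : Set CurveQ) ⊆ (ZZ (Sc r z) (r / (20 * ((k + 1 : ℕ) : ℝ))))ᶜ}) = 0 := by
    have hbd : ∀ k : ℕ, (M : Measure Col)
        {𝓛 : Col | (𝓛 : Set CurveQ) ⊆ (ZZ (Sc r z) (r / (20 * ((k + 1 : ℕ) : ℝ))))ᶜ} ≤
          ENNReal.ofReal ((1 - c0) ^ (k + 1)) := by
      intro k
      refine (ProbabilityMeasure.le_liminf_measure_open_of_tendsto hM
        (NonemptyCompacts.isOpen_subsets_of_isOpen (zz_closed hScl).isOpen_compl)).trans ?_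
      refine liminf_le_of_frequently_le' (Eventually.frequently ?_)
      exact key (k + 1) (Nat.succ_pos k)
    have hlim : Tendsto (fun k : ℕ => ENNReal.ofReal ((1 - c0) ^ (k + 1))) atTop (𝓝 0) := by
      rw [← ENNReal.ofReal_zero]
      apply ENNReal.tendsto_ofReal
      exact (tendsto_pow_atTop_nhds_zero_of_lt_one (by linarith [c0_le])
        (by linarith [c0_pos])).comp (tendsto_add_atTop_nat 1)
    refine le_antisymm (ge_of_tendsto' hlim fun k => ?_) zero_le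
    exact (measure_mono (Set.iInter_subset _ k)).trans (hbd k)
  rw [ae_iff]
  refine measure_mono_null (fun L hL => Set.mem_iInter.2 fun k y hy hyZ => ?_) hnull
  exact hL ⟨y, hy, _, by positivity, hyZ⟩

/-- The collection has non-constant loops in every open subset of `D`. -/
def Rich (D : Set ℂ) (𝓛 : Col) : Prop := ∀ U : Set ℂ, IsOpen U → (U ∩ D).Nonempty →
  ∃ c : Curve, cls c ∈ 𝓛 ∧ (∀ t, c.path t ∈ U) ∧ ∃ t t', c.path t ≠ c.path t'

theorem t_rich {s : Seq} {D : Set ℂ} (hD : IsOpen D) (hs : Free s D)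
    {C : ℕ → Finset Edg → Col}
    (h : ∀ n, ∀ F ⊆ s.E n, AllLp (s.δ n) (s.o n) D (s.G n F) (C n F)) {M : ProbabilityMeasure Col}
    (hM : Tendsto (lawC s C) atTop (𝓝 M)) : ∀ᵐ 𝓛 : Col ∂(M : Measure Col), Rich D 𝓛 := by
  have h1 : ∀ᵐ 𝓛 : Col ∂(M : Measure Col), ∀ (a b r : ℚ), 0 < r → Sc (r : ℝ) ⟨a, b⟩ ⊆ D →
      ∃ y ∈ (𝓛 : Set CurveQ), ∃ η : ℝ, 0 < η ∧ y ∈ ZZ (Sc (r : ℝ) ⟨a, b⟩) η := by
    refine ae_all_iff.2 fun a => ae_all_iff.2 fun b => ae_all_iff.2 fun r => ?_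
    by_cases hc : 0 < r ∧ Sc (r : ℝ) ⟨a, b⟩ ⊆ D
    · filter_upwards [one_square hD hs h hM (z := ⟨a, b⟩) (r := (r : ℝ))
        (by exact_mod_cast hc.1) hc.2] with 𝓛 h _ _
      exact h
    · exact Eventually.of_forall fun 𝓛 e1 e2 => absurd ⟨e1, e2⟩ hc
  filter_upwards [h1] with 𝓛 g U hU hne
  obtain ⟨x, hxU, hxD⟩ := hne
  obtain ⟨ε, hε, hb⟩ := Metric.isOpen_iff.1 (hU.inter hD) x ⟨hxU, hxD⟩
  obtain ⟨r, hr0, hr⟩ := exists_rat_btwn (show (0 : ℝ) < ε / 8 from by positivity)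
  obtain ⟨a, ha1, ha2⟩ := exists_rat_btwn (show x.re < x.re + r from by linarith)
  obtain ⟨b, hb1, hb2⟩ := exists_rat_btwn (show x.im < x.im + r from by linarith)
  have hsub : Sc (r : ℝ) ⟨a, b⟩ ⊆ U ∩ D := by
    intro y hy
    apply hb
    obtain ⟨h3, h4⟩ := hy
    rw [abs_le] at h3 h4
    simp only at h3 h4
    rw [Metric.mem_ball, dist_eq_norm]
    refine (Complex.norm_le_abs_re_add_abs_im _).trans_lt ?_
    rw [Complex.sub_re, Complex.sub_im]
    have h5 : |y.re - x.re| ≤ 2 * r := abs_le.2 ⟨by linarith, by linarith⟩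
    have h6 : |y.im - x.im| ≤ 2 * r := abs_le.2 ⟨by linarith, by linarith⟩
    linarith
  obtain ⟨y, hy, η, hη, hy1, u, hu, v, hv, huv⟩ := g a b r (by exact_mod_cast hr0)
    (hsub.trans Set.inter_subset_right)
  obtain ⟨c, rfl⟩ := SeparationQuotient.surjective_mk y
  have hy1' : Set.range c.path ⊆ Sc (r : ℝ) ⟨a, b⟩ := hy1
  have hu' : u ∈ Set.range c.path := hu
  have hv' : v ∈ Set.range c.path := hv
  obtain ⟨t, rfl⟩ := hu'
  obtain ⟨t', rfl⟩ := hv'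
  refine ⟨c, hy, fun t => (hsub (hy1' ⟨t, rfl⟩)).1, t, t', fun he => ?_⟩
  rw [he, dist_self] at huv
  linarith

/-- Only finitely many loops of diameter at least `η` meet a compact subset of `D`. -/
def LocFin (D : Set ℂ) (𝓛 : Col) : Prop := ∀ L ⊆ D, IsCompact L → ∀ η : ℝ, 0 < η →
  {y : CurveQ | y ∈ (𝓛 : Set CurveQ) ∧ ∃ c : Curve, cls c = y ∧ (∃ t, c.path t ∈ L) ∧
    ∃ t t', η ≤ dist (c.path t) (c.path t')}.Finite

theorem t_locfin {s : Seq} {D : Set ℂ} (hD : IsOpen D) (hag : s.Agree D)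
    {C : ℕ → Finset Edg → Col} (hC : IsCol s D C) {M : ProbabilityMeasure Col}
    (hM : Tendsto (lawC s C) atTop (𝓝 M)) : ∀ᵐ 𝓛 : Col ∂(M : Measure Col), LocFin D 𝓛 := by
  have h1 : ∀ᵐ 𝓛 : Col ∂(M : Measure Col), ∀ (a b r : ℚ), 0 < r →
      Run7.h561.EC.Sq (4 * (r : ℝ)) ⟨a, b⟩ ⊆ D →
      ((𝓛 : Set CurveQ) ∩ CrQ ⟨a, b⟩ r).Finite := by
    refine ae_all_iff.2 fun a => ae_all_iff.2 fun b => ae_all_iff.2 fun r => ?_
    by_cases hc : 0 < r ∧ Run7.h561.EC.Sq (4 * (r : ℝ)) ⟨a, b⟩ ⊆ D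
    · filter_upwards [finite_cross t_CNT hD hag hC hM (z := ⟨a, b⟩) (r := (r : ℝ))
        (by exact_mod_cast hc.1) hc.2] with 𝓛 h _ _
      exact h
    · exact Eventually.of_forall fun 𝓛 e1 e2 => absurd ⟨e1, e2⟩ hc
  filter_upwards [h1] with 𝓛 g L hL hc η hη
  -- for every point of `L`, a square
  have hsq : ∀ x ∈ L, ∃ a b r : ℚ, 0 < r ∧ Run7.h561.EC.Sq (4 * (r : ℝ)) ⟨a, b⟩ ⊆ D ∧
      x ∈ Run7.h561.EC.Sq (r : ℝ) ⟨a, b⟩ ∧ 8 * (r : ℝ) < η := by
    intro x hx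
    obtain ⟨ε, hε, hb⟩ := Metric.isOpen_iff.1 hD x (hL hx)
    obtain ⟨r, hr0, hr⟩ := exists_rat_btwn (show (0 : ℝ) < min (ε / 20) (η / 20)
      from by positivity)
    obtain ⟨a, ha1, ha2⟩ := exists_rat_btwn (show x.re < x.re + r from by linarith)
    obtain ⟨b, hb1, hb2⟩ := exists_rat_btwn (show x.im < x.im + r from by linarith)
    have hr1 : (r : ℝ) < ε / 20 := hr.trans_le (min_le_left _ _)
    have hr2 : (r : ℝ) < η / 20 := hr.trans_le (min_le_right _ _)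
    refine ⟨a, b, r, by exact_mod_cast hr0, fun y hy => hb ?_, ?_, by linarith⟩
    · obtain ⟨h3, h4⟩ := hy
      rw [abs_lt] at h3 h4
      simp only at h3 h4
      rw [Metric.mem_ball, dist_eq_norm]
      refine (Complex.norm_le_abs_re_add_abs_im _).trans_lt ?_
      rw [Complex.sub_re, Complex.sub_im]
      have h5 : |y.re - x.re| ≤ 5 * r := abs_le.2 ⟨by linarith, by linarith⟩
      have h6 : |y.im - x.im| ≤ 5 * r := abs_le.2 ⟨by linarith, by linarith⟩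
      linarith
    · constructor
      · show |x.re - a| < r
        rw [abs_lt]; constructor <;> linarith
      · show |x.im - b| < r
        rw [abs_lt]; constructor <;> linarith
  choose! a b r hr0 hr1 hr2 hr3 using hsq
  obtain ⟨T, hcov⟩ := hc.elim_nhds_subcover' (fun x _ => Run7.h561.EC.Sq (r x : ℝ)
    ⟨a x, b x⟩) (fun x hx => (sq_open _ _).mem_nhds (hr2 x hx))
  refine ((T.finite_toSet.biUnion (t := fun x => (𝓛 : Set CurveQ) ∩ CrQ ⟨a x, b x⟩ (r x))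
    (fun x hx => g (a x) (b x) (r x) (hr0 x x.2) (hr1 x x.2)))).subset ?_
  rintro y ⟨hy, c, rfl, ⟨t0, ht0⟩, t, t', hd⟩
  obtain ⟨x, hx⟩ := Set.mem_iUnion.1 (hcov ht0)
  obtain ⟨hxT, hx2⟩ := Set.mem_iUnion.1 hx
  refine Set.mem_biUnion hxT ⟨hy, ⟨c.path t0, ⟨t0, rfl⟩, hx2⟩, ?_⟩
  by_contra hcon
  have hin : ∀ t, |(c.path t).re - a x| ≤ 2 * r x ∧ |(c.path t).im - b x| ≤ 2 * r x := by
    intro t
    by_contra h3
    apply hcon
    refine ⟨c.path t, ⟨t, rfl⟩, ?_⟩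
    rw [not_and_or, not_le, not_le] at h3
    exact h3
  obtain ⟨h3, h4⟩ := hin t
  obtain ⟨h5, h6⟩ := hin t'
  have h7 : dist (c.path t) (c.path t') ≤ 8 * r x := by
    rw [dist_eq_norm]
    refine (Complex.norm_le_abs_re_add_abs_im _).trans ?_
    rw [Complex.sub_re, Complex.sub_im]
    rw [abs_le] at h3 h4 h5 h6
    have h8 : |(c.path t).re - (c.path t').re| ≤ 4 * r x :=
      abs_le.2 ⟨by linarith, by linarith⟩
    have h9 : |(c.path t).im - (c.path t').im| ≤ 4 * r x :=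
      abs_le.2 ⟨by linarith, by linarith⟩
    linarith
  have := hr3 x x.2
  linarith

end Run7.h561.FL
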