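import Pool.Agent.H342R3.Tig.PRK
import Mathlib.Topology.Sets.VietorisTopology

/-! # Selections from random compact sets (general facts) -/

set_option autoImplicit false

namespace Run7.h561.FL

open MeasureTheory Filter Topology TopologicalSpace Metric Set
open H342L H342T
open scoped ENNReal

instance instSepCurve : SeparableSpace Curve := by
  have hs : Function.Surjective (fun f : C(unitInterval, ℂ) => (⟨f⟩ : Curve)) := by
    rintro ⟨f⟩
    exact ⟨f, rfl⟩
  exact hs.denseRange.separableSpace PRK_continuous_mk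

/-- the space of curves is complete -/
instance instCompleteCurve : CompleteSpace Curve := by
  refine Metric.complete_of_convergent_controlled_sequences (fun n => 1 / 2 / 2 ^ n)
    (fun n => by positivity) fun u hu => ?_
  have h1 : ∀ n, ∃ φ : unitInterval ≃o unitInterval,
      dist (u n).path (rep (u (n + 1)).path φ) ≤ 1 / 2 / 2 ^ n := by
    intro n
    have h := hu n n (n + 1) le_rfl (Nat.le_succ n)
    rw [Curve.dist_def, cdist_eq] at h
    obtain ⟨φ, hφ⟩ := exists_lt_of_ciInf_lt h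
    exact ⟨φ, hφ.le⟩
  choose φ hφ using h1
  obtain ⟨ψ, hψ0, hψ⟩ : ∃ ψ : ℕ → (unitInterval ≃o unitInterval),
      ψ 0 = OrderIso.refl _ ∧ ∀ n, ψ (n + 1) = (ψ n).trans (φ n) :=
    ⟨fun n => Nat.rec (OrderIso.refl _) (fun k p => p.trans (φ k)) n, rfl, fun n => rfl⟩
  have h2 : ∀ n, dist (rep (u n).path (ψ n)) (rep (u (n + 1)).path (ψ (n + 1))) ≤
      1 / 2 / 2 ^ n := by
    intro n
    rw [ContinuousMap.dist_le (by positivity)]
    intro t
    have h := ContinuousMap.dist_apply_le_dist (f := (u n).path)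
      (g := rep (u (n + 1)).path (φ n)) (ψ n t)
    refine le_trans ?_ (h.trans (hφ n))
    rw [rep_apply, rep_apply, rep_apply, hψ n]
    rfl
  have h3 : CauchySeq (fun n => rep (u n).path (ψ n)) :=
    cauchySeq_of_le_geometric_two (C := 1) h2
  obtain ⟨g, hg⟩ := cauchySeq_tendsto_of_complete h3
  refine ⟨⟨g⟩, ?_⟩
  rw [tendsto_iff_dist_tendsto_zero] at hg ⊢
  refine squeeze_zero (fun n => dist_nonneg) (fun n => ?_) hg
  rw [dist_comm, Curve.dist_def]
  refine (cdist_le _ _ (ψ n)).trans (le_of_eq ?_)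
  rw [dist_comm]

section Gen

variable {Y : Type} [MetricSpace Y] [MeasurableSpace Y] [BorelSpace Y]
  [MeasurableSpace (NonemptyCompacts Y)] [BorelSpace (NonemptyCompacts Y)]

/-- the sets `L` which meet the open ball and are in `O` inside of the closed ball -/
def TT (x : Y) (r : ℝ) (O : Set Y) : Set (NonemptyCompacts Y) :=
  {L | ((L : Set Y) ∩ ball x r).Nonempty ∧ (L : Set Y) ⊆ O ∪ (closedBall x r)ᶜ}

theorem tt_open (x : Y) (r : ℝ) {O : Set Y} (hO : IsOpen O) : IsOpen (TT x r O) :=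
  (NonemptyCompacts.isOpen_inter_nonempty_of_isOpen isOpen_ball).inter
    (NonemptyCompacts.isOpen_subsets_of_isOpen (hO.union isClosed_closedBall.isOpen_compl))

/-- the member in the ball is unique, and it is in `A` -/
def BB (x : Y) (r : ℝ) (A : Set Y) : Set (NonemptyCompacts Y) :=
  {L | ∃ c ∈ A, c ∈ ball x r ∧ (L : Set Y) ∩ closedBall x r = {c}}

theorem bb_sub {x : Y} {r : ℝ} {A O : Set Y} (h : A ⊆ O) : BB x r A ⊆ TT x r O := by
  rintro L ⟨c, hc, hcb, hL⟩
  have hcL : c ∈ (L : Set Y) := by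
    have : c ∈ (L : Set Y) ∩ closedBall x r := by rw [hL]; exact rfl
    exact this.1
  refine ⟨⟨c, hcL, hcb⟩, fun y hy => ?_⟩
  by_cases h1 : y ∈ closedBall x r
  · left
    have : y ∈ (L : Set Y) ∩ closedBall x r := ⟨hy, h1⟩
    rw [hL] at this
    rw [mem_singleton_iff.1 this]
    exact h hc
  · right
    exact h1

theorem sel_closed {ms : ℕ → ProbabilityMeasure (NonemptyCompacts Y)}
    {M : ProbabilityMeasure (NonemptyCompacts Y)} (hM : Tendsto ms atTop (𝓝 M))
    {gs : ℕ → ProbabilityMeasure Y} {μ : ProbabilityMeasure Y} (hμ : Tendsto gs atTop (𝓝 μ))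
    {x : Y} {r : ℝ} (hsel : ∀ n, ∀ O : Set Y, IsOpen O →
      (ms n : Measure (NonemptyCompacts Y)) (TT x r O) ≤ (gs n : Measure Y) O)
    {F : Set Y} (hF : IsClosed F) :
    (M : Measure (NonemptyCompacts Y)) (BB x r F) ≤ (μ : Measure Y) F := by
  have h1 : ∀ ε : ℝ, 0 < ε → (M : Measure (NonemptyCompacts Y)) (BB x r F) ≤
      (μ : Measure Y) (cthickening ε F) := by
    intro ε hε
    calc (M : Measure (NonemptyCompacts Y)) (BB x r F)
        ≤ (M : Measure (NonemptyCompacts Y)) (TT x r (thickening ε F)) :=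
          measure_mono (bb_sub (self_subset_thickening hε F))
      _ ≤ liminf (fun n => (ms n : Measure (NonemptyCompacts Y)) (TT x r (thickening ε F)))
            atTop :=
          ProbabilityMeasure.le_liminf_measure_open_of_tendsto hM
            (tt_open x r isOpen_thickening)
      _ ≤ liminf (fun n => (gs n : Measure Y) (cthickening ε F)) atTop :=
          liminf_le_liminf (Eventually.of_forall fun n =>
            (hsel n _ isOpen_thickening).trans (measure_mono (thickening_subset_cthickening ε F)))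
      _ ≤ limsup (fun n => (gs n : Measure Y) (cthickening ε F)) atTop := liminf_le_limsup
      _ ≤ (μ : Measure Y) (cthickening ε F) :=
          ProbabilityMeasure.limsup_measure_closed_le_of_tendsto hμ isClosed_cthickening
  have h2 : Tendsto (fun ε : ℝ => (μ : Measure Y) (cthickening ε F)) (𝓝 0)
      (𝓝 ((μ : Measure Y) F)) :=
    tendsto_measure_cthickening_of_isClosed ⟨1, one_pos, measure_ne_top _ _⟩ hF
  have h3 : Tendsto (fun ε : ℝ => (μ : Measure Y) (cthickening ε F)) (𝓝[>] 0)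
      (𝓝 ((μ : Measure Y) F)) := h2.mono_left nhdsWithin_le_nhds
  exact ge_of_tendsto h3 (by
    filter_upwards [self_mem_nhdsWithin] with ε hε
    exact h1 ε hε)

theorem sel_null {ms : ℕ → ProbabilityMeasure (NonemptyCompacts Y)}
    {M : ProbabilityMeasure (NonemptyCompacts Y)} (hM : Tendsto ms atTop (𝓝 M))
    {gs : ℕ → ProbabilityMeasure Y} {μ : ProbabilityMeasure Y} (hμ : Tendsto gs atTop (𝓝 μ))
    {x : Y} {r : ℝ} (hsel : ∀ n, ∀ O : Set Y, IsOpen O →
      (ms n : Measure (NonemptyCompacts Y)) (TT x r O) ≤ (gs n : Measure Y) O)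
    {A : Set Y} (hA : (μ : Measure Y) A = 0) :
    (M : Measure (NonemptyCompacts Y)) (BB x r A) = 0 := by
  refine le_antisymm (ENNReal.le_of_forall_pos_le_add fun ε hε _ => ?_) zero_le
  rw [zero_add]
  obtain ⟨O, hAO, hO, hOε⟩ := A.exists_isOpen_lt_of_lt (μ := (μ : Measure Y)) (ε : ℝ≥0∞)
    (by rw [hA]; exact_mod_cast hε)
  obtain ⟨F, hF, hFO, hFU, hmono⟩ := hO.exists_iUnion_isClosed
  have h1 : BB x r A ⊆ ⋃ n, BB x r (F n) := by
    rintro L ⟨c, hc, h2, h3⟩
    have : c ∈ ⋃ n, F n := by rw [hFU]; exact hAO hc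
    obtain ⟨n, hn⟩ := mem_iUnion.1 this
    exact mem_iUnion.2 ⟨n, c, hn, h2, h3⟩
  have h2 : Monotone (fun n => BB x r (F n)) := by
    rintro n m hnm L ⟨c, hc, h2, h3⟩
    exact ⟨c, hmono hnm hc, h2, h3⟩
  calc (M : Measure (NonemptyCompacts Y)) (BB x r A)
      ≤ (M : Measure (NonemptyCompacts Y)) (⋃ n, BB x r (F n)) := measure_mono h1
    _ = ⨆ n, (M : Measure (NonemptyCompacts Y)) (BB x r (F n)) := h2.measure_iUnion
    _ ≤ (μ : Measure Y) O := iSup_le fun n =>
        (sel_closed hM hμ hsel (hF n)).trans (measure_mono (hFO n))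
    _ ≤ ε := hOε.le

/-- the union of the members of a compact family of compact sets is compact -/
theorem union_compact {K : Set (NonemptyCompacts Y)} (hK : IsCompact K) :
    IsCompact {y : Y | ∃ L ∈ K, y ∈ (L : Set Y)} := by
  rw [isCompact_iff_isSeqCompact]
  intro y hy
  choose L hL hyL using hy
  obtain ⟨L0, hL0, φ, hφ, hlim⟩ := hK.isSeqCompact hL
  have h1 : ∀ i, ∃ z ∈ (L0 : Set Y), dist (y (φ i)) z ≤ dist (L (φ i)) L0 + 1 / ((i : ℝ) + 1) := by
    intro i
    have hd : (0 : ℝ) < 1 / ((i : ℝ) + 1) := by positivity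
    obtain ⟨z, hz, h⟩ := Metric.exists_dist_lt_of_hausdorffDist_lt (hyL (φ i))
      (r := dist (L (φ i)) L0 + 1 / ((i : ℝ) + 1)) (by
        rw [← Metric.NonemptyCompacts.dist_eq]; linarith)
      (Metric.hausdorffEDist_ne_top_of_nonempty_of_bounded (L (φ i)).nonempty L0.nonempty
        (L (φ i)).isCompact.isBounded L0.isCompact.isBounded)
    exact ⟨z, hz, h.le⟩
  choose z hz hyz using h1
  obtain ⟨z0, hz0, ψ, hψ, hzlim⟩ := L0.isCompact.isSeqCompact hz
  refine ⟨z0, ⟨L0, hL0, hz0⟩, φ ∘ ψ, hφ.comp hψ, ?_⟩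
  have h2 : Tendsto (fun i => dist (L (φ (ψ i))) L0 + 1 / (((ψ i : ℕ) : ℝ) + 1)) atTop (𝓝 0) := by
    have h3 : Tendsto (fun i => dist (L (φ i)) L0) atTop (𝓝 0) :=
      tendsto_iff_dist_tendsto_zero.1 hlim
    have h4 := (h3.add tendsto_one_div_add_atTop_nhds_zero_nat).comp hψ.tendsto_atTop
    rw [add_zero] at h4
    exact h4
  have h5 : Tendsto (fun i => dist (y (φ (ψ i))) (z (ψ i))) atTop (𝓝 0) :=
    squeeze_zero (fun _ => dist_nonneg) (fun i => hyz (ψ i)) h2
  rw [tendsto_iff_dist_tendsto_zero]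
  have h6 := h5.add (tendsto_iff_dist_tendsto_zero.1 hzlim)
  rw [add_zero] at h6
  exact squeeze_zero (fun _ => dist_nonneg) (fun i => dist_triangle _ _ _) h6

/-- A convergent sequence of laws of compact sets is tight, in the strong sense. -/
theorem strong_tight [CompleteSpace Y] [SeparableSpace Y]
    {ms : ℕ → ProbabilityMeasure (NonemptyCompacts Y)}
    {M : ProbabilityMeasure (NonemptyCompacts Y)} (hM : Tendsto ms atTop (𝓝 M))
    {ε : ℝ} (hε : 0 < ε) : ∃ K : Set Y, IsCompact K ∧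
      ∀ n, (ms n : Measure (NonemptyCompacts Y)) {L | (L : Set Y) ⊆ K}ᶜ ≤ ENNReal.ofReal ε := by
  have : SecondCountableTopology Y := UniformSpace.secondCountable_of_separable Y
  have h1 : IsCompact (insert M (range ms)) := hM.isCompact_insert_range
  have h2 : IsTightMeasureSet {((μ : ProbabilityMeasure (NonemptyCompacts Y)) :
      Measure (NonemptyCompacts Y)) | μ ∈ range ms} := by
    apply isTightMeasureSet_of_isCompact_closure
    exact h1.closure_of_subset (subset_insert _ _)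
  rw [isTightMeasureSet_iff_exists_isCompact_measure_compl_le] at h2
  obtain ⟨K, hK, hKε⟩ := h2 (ENNReal.ofReal ε) (ENNReal.ofReal_pos.2 hε)
  refine ⟨_, union_compact hK, fun n => ?_⟩
  refine (measure_mono ?_).trans (hKε _ ⟨ms n, ⟨n, rfl⟩, rfl⟩)
  intro L hL hLK
  exact hL fun y hy => ⟨L, hLK, hy⟩

end Gen

end Run7.h561.FL
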