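import Pool.Agent.Run7.h165.GI.Defs
import Pool.Agent.Run7.h561.FL.Sel

/-!
# Project FL: all the interfaces (as curves), in any domain, with any boundary condition.
Definitions and statements (nothing is assumed).
-/

set_option autoImplicit false

namespace Run7.h561.FL

open H974 H12S Finset H984P H342L H342T MeasureTheory TopologicalSpace Filter Topology
open Pool.Agent.TH990.FU (zp)
open Run7.h561.CC (Seq lawE)
open Run7.h165.GI (Full Itf)
open scoped ENNReal

/-- The metric space of curves: two curves at distance `0` are identified. -/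
abbrev CurveQ : Type := SeparationQuotient Curve

/-- the class of a curve -/
noncomputable def cls (c : Curve) : CurveQ := SeparationQuotient.mk c

/-- The collections of curves: the nonempty compact sets of curves. -/
abbrev Col : Type := NonemptyCompacts CurveQ

noncomputable instance instMQ : MeasurableSpace CurveQ := borel _
instance instBQ : BorelSpace CurveQ := ⟨rfl⟩
noncomputable instance instMCol : MeasurableSpace Col := borel _
instance instBCol : BorelSpace Col := ⟨rfl⟩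

/-- The polygonal path with the vertices of the states `σ, nxt σ, …` (`N` steps). -/
noncomputable def pth (δ : ℝ) (o : ℂ) (G : Set Edg) (p : St × ℕ) : Curve :=
  ⟨poly (fun j => zp δ o (orb G p.1 j).1) p.2⟩

/-- No repetition of a state before the last one. -/
def Inj (G : Set Edg) (p : St × ℕ) : Prop :=
  0 < p.2 ∧ ∀ i j, i < j → j < p.2 → orb G p.1 i ≠ orb G p.1 j

/-- All visits of `L` by the interface of `p.1` are on the path. -/
def Compl (δ : ℝ) (o : ℂ) (G : Set Edg) (L : Set ℂ) (p : St × ℕ) : Prop :=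
  ∀ τ ∈ Full G p.1, zp δ o τ.1 ∈ L → ∃ k < p.2, orb G p.1 k = τ

/-- The paths of `p` and `p'` have no common state with its vertex in `L`. -/
def Disj (δ : ℝ) (o : ℂ) (G : Set Edg) (L : Set ℂ) (p p' : St × ℕ) : Prop :=
  ∀ i < p.2, ∀ j < p'.2, orb G p.1 i = orb G p'.1 j → zp δ o (orb G p.1 i).1 ∉ L

/-- `C` chooses collections of different interfaces, complete in `D`: in every compact subset of
`D`, for small mesh, the paths contain all visits of their interfaces, and they are disjoint. -/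
def IsCol (s : Seq) (D : Set ℂ) (C : ℕ → Finset Edg → Col) : Prop :=
  ∃ R : ℕ → Finset Edg → Finset (St × ℕ),
    (∀ n, ∀ F ⊆ s.E n, (C n F : Set CurveQ) =
      {y | ∃ p ∈ R n F, y = cls (pth (s.δ n) (s.o n) (s.G n F) p)} ∧
      ∀ p ∈ R n F, Inj (s.G n F) p) ∧
    ∀ L ⊆ D, IsCompact L → ∀ᶠ n in atTop, ∀ F ⊆ s.E n, ∀ p ∈ R n F,
      Compl (s.δ n) (s.o n) (s.G n F) L p ∧
      ∀ p' ∈ R n F, p ≠ p' → Disj (s.δ n) (s.o n) (s.G n F) L p p'

/-- The law of the collection. -/
noncomputable def lawC (s : Seq) (C : ℕ → Finset Edg → Col) (n : ℕ) : ProbabilityMeasure Col :=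
  lawE (s.E n) (C n)

/-- The path of `p` meets the square of radius `r` at `z` and leaves the square of radius `2 r`. -/
def Crs (δ : ℝ) (o : ℂ) (G : Set Edg) (z : ℂ) (r : ℝ) (p : St × ℕ) : Prop :=
  (∃ t, (pth δ o G p).path t ∈ Run7.h561.EC.Sq r z) ∧
    ∃ t, (pth δ o G p).path t ∉ Run7.h561.EC.Sq (2 * r) z

/-- CNT: the number of different interfaces which cross a square annulus. -/
def S_CNT : Prop := ∀ (s : Seq) (D : Set ℂ), IsOpen D → s.Agree D → ∀ (z : ℂ) (r : ℝ), 0 < r →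
  Run7.h561.EC.Sq (4 * r) z ⊆ D → ∃ C : ℝ, 0 < C ∧ ∀ᶠ n in atTop,
    ∀ R : Finset Edg → Finset (St × ℕ),
      (∀ F ⊆ s.E n, ∀ p ∈ R F, Inj (s.G n F) p ∧ ∀ p' ∈ R F, p ≠ p' →
        Disj (s.δ n) (s.o n) (s.G n F) (Run7.h561.EC.Sq (3 * r) z) p p') →
      ∀ k : ℕ, 0 < k → PQ (1 / 2) (s.E n) (fun F => ∃ S : Finset (St × ℕ), S ⊆ R F ∧ S.card = k ∧
        ∀ p ∈ S, Crs (s.δ n) (s.o n) (s.G n F) z r p) ≤ C / k

/-- The conclusion for one curve. -/
def Dim43 (D : Set ℂ) (c : Curve) : Prop := ∀ s t : unitInterval,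
  (∃ u ∈ Set.Icc s t, c.path u ≠ c.path s) → ∀ U : Set ℂ, IsOpen U → ∀ w z : ℂ, z ∈ U → z ∈ D →
    z ∈ frontier (connectedComponentIn (U \ c.path '' Set.Icc s t) w) → ∀ ρ : ℝ, 0 < ρ →
      dimH (frontier (connectedComponentIn (U \ c.path '' Set.Icc s t) w) ∩
        (U ∩ D ∩ Metric.ball z ρ)) = 4 / 3

/-- FL -/
def S_FL : Prop := ∀ (s : Seq) (D : Set ℂ), IsOpen D → s.Agree D →
  ∀ C : ℕ → Finset Edg → Col, IsCol s D C → ∀ M : ProbabilityMeasure Col,
    Tendsto (lawC s C) atTop (𝓝 M) →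
    ∀ᵐ 𝓛 : Col ∂(M : Measure Col), ∀ c : Curve, cls c ∈ 𝓛 → Dim43 D c

end Run7.h561.FL
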