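import Pool.Agent.Run7.h165.GI.Rx4
import Pool.Agent.Run7.h561.FL.Stm

/-! # All the interface loops of a box at once: uniform compact sets -/

set_option autoImplicit false

namespace Run7.h561.FL

open H974 H12S Finset H984P H342L H342T H342P.Plain MeasureTheory Filter Topology
open Run7.h165.GI (wired_N4 cut_scale)
open Pool.Agent.TH990.FU (zp)
open scoped ENNReal

/-- A closed orbit, traversed once. -/
def Loop (G : Set Edg) (p : St × ℕ) : Prop :=
  0 < p.2 ∧ orb G p.1 p.2 = p.1 ∧ ∀ j, 0 < j → j < p.2 → orb G p.1 j ≠ p.1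

/-- the curve of a loop in the box `{0, …, n}²` -/
noncomputable def lpn (n : ℕ) (G : Set Edg) (p : St × ℕ) : C(unitInterval, ℂ) :=
  poly (fun j => pt n (orb G p.1 j).1) p.2

theorem lpn_cut {n : ℕ} (hn : 0 < n) {F : Finset Edg} {p : St × ℕ}
    (hbox : ∀ k, inR 0 n 0 n (orb (↑F : Set Edg) p.1 k).1) (hp : Loop (↑F : Set Edg) p) :
    (∀ j : ℕ, Cut (4 * (n + 1) ^ 2 * (j + 1)) (1 / ((j:ℝ) + 1)) (lpn n (↑F) p)) ∧
    (∀ a : ℕ, 1 ≤ a → Cut (N4 n a F + 1) ((12 * a + 6) / n) (lpn n (↑F) p)) := by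
  obtain ⟨hN, hper, hmin⟩ := hp
  refine ⟨fun j => ?_, fun a ha => t_GRD t_POL n a F p.1 p.2 hn ha hbox hN hper hmin⟩
  have h1 := t_SML t_POL (fun j => pt n (orb (↑F : Set Edg) p.1 j).1) p.2
    (1 / ((j:ℝ) + 1)) hN (by positivity) (fun j => pt_step hn _ _ _)
  refine h1.mono ?_ le_rfl
  have h2 : ⌈1 / (1 / ((j:ℝ) + 1))⌉₊ = j + 1 := by
    rw [one_div_one_div]
    exact_mod_cast Nat.ceil_natCast (j + 1)
  rw [h2]
  refine Nat.mul_le_mul_right _ (period_le (n := n) (fun k => ?_) hmin)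
  rw [Run7.h165.GI.box_mem]
  exact hbox k

/-- **Uniform compactness**: outside of an event of probability `ε`, all the loops satisfy, after a
contraction and a translation into the unit square, `c ∈ K`. -/
theorem loops_tight0 {ε : ℝ} (hε : 0 < ε) : ∃ K : Set Curve, IsCompact K ∧ IsClosed K ∧
    ∀ (n : ℕ) (S : Finset Edg), 0 < n →
      Pr (fun _ => (1/2:ℝ)) S (fun F => ∃ p : St × ℕ,
        (∀ k, inR 0 n 0 n (orb (↑F : Set Edg) p.1 k).1) ∧ Loop (↑F : Set Edg) p ∧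
        ∃ (c : Curve) (x : ℂ) (ρ : ℝ), 0 ≤ ρ ∧ ρ ≤ 1 ∧ (∀ t, c.path t ∈ csq) ∧
          (∀ t, c.path t = x + (ρ : ℂ) * lpn n (↑F) p t) ∧ c ∉ K) ≤ ε := by
  classical
  have hok : Ok (fun _ : Edg => (1/2:ℝ)) := fun _ => ⟨by norm_num, by norm_num⟩
  obtain ⟨C, hC0, hcnt⟩ := wired_N4
  set n' : ℕ → ℕ := fun j => 1000 * (j + 1) with hn'
  set m' : ℕ → ℕ := fun j => ⌈C * (49 * ((j:ℝ) + 1)) ^ 2 * 2 ^ (j + 1) / ε⌉₊ + 1 with hm'
  set D : ℕ → ℕ := fun j => m' j + 4 * (n' j + 1) ^ 2 * (j + 1) with hD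
  obtain ⟨K, hKc, hKcl, hmem⟩ := t_ARZ D
  refine ⟨K, hKc, hKcl, fun n S hn => ?_⟩
  have hbad : Pr (fun _ => (1/2:ℝ)) S (fun F => ∃ p : St × ℕ,
        (∀ k, inR 0 n 0 n (orb (↑F : Set Edg) p.1 k).1) ∧ Loop (↑F : Set Edg) p ∧
        ∃ (c : Curve) (x : ℂ) (ρ : ℝ), 0 ≤ ρ ∧ ρ ≤ 1 ∧ (∀ t, c.path t ∈ csq) ∧
          (∀ t, c.path t = x + (ρ : ℂ) * lpn n (↑F) p t) ∧ c ∉ K) ≤
      Pr (fun _ => (1/2:ℝ)) S
      (fun F => ∃ j ∈ (Finset.range n).filter (fun j => n' j ≤ n),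
        m' j ≤ N4 n (n / (24 * (j + 1))) (F ∪ (∅ ∪ ∅))) := by
    refine Pr_mono hok fun F hF hnot => ?_
    obtain ⟨p, hbox, hp, c, x, ρ, hρ0, hρ1, hsq, hc, hnot⟩ := hnot
    by_contra hcon
    apply hnot
    obtain ⟨h2, h3⟩ := lpn_cut hn hbox hp
    -- remove the translation
    have hcut : ∀ (m : ℕ) (r : ℝ), Cut m r (lpn n (↑F : Set Edg) p) → Cut m r c.path := by
      intro m r h
      obtain ⟨k, t, g1, g2, g3, g4, g5, g6⟩ := h
      refine ⟨k, t, g1, g2, g3, g4, g5, fun i hi s s' a b c' d => ?_⟩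
      have g7 := g6 i hi s s' a b c' d
      have e : dist (c.path s) (c.path s') = ρ * dist (lpn n (↑F : Set Edg) p s)
          (lpn n (↑F : Set Edg) p s') := by
        rw [hc, hc, dist_add_left, dist_eq_norm, ← mul_sub, norm_mul, Complex.norm_real,
          Real.norm_eq_abs, abs_of_nonneg hρ0, ← dist_eq_norm]
      rw [e]
      have g8 : 0 ≤ dist (lpn n (↑F : Set Edg) p s) (lpn n (↑F : Set Edg) p s') := dist_nonneg
      nlinarith
    apply hmem _ hsq
    intro j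
    by_cases hj : n' j ≤ n
    · have hjn : j ∈ (Finset.range n).filter (fun j => n' j ≤ n) := by
        rw [Finset.mem_filter, Finset.mem_range]
        refine ⟨?_, hj⟩
        simp only [hn'] at hj
        omega
      have h4 : N4 n (n / (24 * (j + 1))) F < m' j := by
        by_contra h5
        exact hcon ⟨j, hjn, by
          rw [Finset.union_empty, Finset.union_empty]
          exact not_lt.mp h5⟩
      simp only [hn'] at hj
      have hkpos : 0 < 24 * (j + 1) := by omega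
      have ha : 1 ≤ n / (24 * (j + 1)) := by
        rw [Nat.le_div_iff_mul_le hkpos]
        omega
      refine (hcut _ _ (h3 _ ha)).mono (by simp only [hD]; omega) ?_
      have hnR : (0:ℝ) < n := by exact_mod_cast hn
      have hj0 : (0:ℝ) < (j:ℝ) + 1 := by positivity
      have hnj : (1000:ℝ) * ((j:ℝ) + 1) ≤ n := by exact_mod_cast hj
      have h6 : ((n / (24 * (j + 1)) : ℕ) : ℝ) ≤ (n:ℝ) / (24 * ((j:ℝ) + 1)) := by
        have := Nat.cast_div_le (α := ℝ) (m := n) (n := 24 * (j + 1))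
        push_cast at this
        exact this
      rw [le_div_iff₀ (by positivity)] at h6
      rw [div_le_div_iff₀ hnR hj0]
      nlinarith
    · refine (hcut _ _ (h2 j)).mono ?_ le_rfl
      have h5 : n + 1 ≤ n' j + 1 := by omega
      have h6 : 4 * (n + 1) ^ 2 * (j + 1) ≤ 4 * (n' j + 1) ^ 2 * (j + 1) := by gcongr
      simp only [hD]
      omega
  refine hbad.trans ((Pr_exists_le hok _ _ _).trans ?_)
  have hterm : ∀ j ∈ (Finset.range n).filter (fun j => n' j ≤ n),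
      Pr (fun _ => (1/2:ℝ)) S
        (fun F => m' j ≤ N4 n (n / (24 * (j + 1))) (F ∪ (∅ ∪ ∅))) ≤ ε * (1/2) ^ (j + 1) := by
    intro j hj
    rw [Finset.mem_filter, Finset.mem_range] at hj
    obtain ⟨-, hj⟩ := hj
    simp only [hn'] at hj
    have hkpos : 0 < 24 * (j + 1) := by omega
    have ha : 5 ≤ n / (24 * (j + 1)) := by
      rw [Nat.le_div_iff_mul_le hkpos]
      omega
    have hemp : (RE 0 0 0 0 : Finset Edg) = ∅ := by
      rw [Finset.eq_empty_iff_forall_notMem]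
      rintro ⟨x, y, _ | _⟩ h
      · rw [mem_RE_false] at h
        omega
      · rw [mem_RE_true] at h
        omega
    refine (hcnt S ∅ ∅ (Or.inl ⟨0, 0, 0, hemp.symm⟩)
      (Or.inr ⟨0, 0, 0, hemp.symm⟩) n _ (m' j) ha (by simp only [hm']; omega)).trans ?_
    obtain ⟨h1, -⟩ := fs_div hkpos (show 2 * (24 * (j + 1)) ≤ n by omega)
    set a : ℕ := n / (24 * (j + 1)) with haa
    have haR : (5:ℝ) ≤ a := by exact_mod_cast ha
    have hj0 : (0:ℝ) < (j:ℝ) + 1 := by positivity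
    have h2 : (n:ℝ) / a ≤ 48 * ((j:ℝ) + 1) := by
      rw [div_le_iff₀ (by linarith)]
      push_cast at h1
      rw [div_le_iff₀ (by positivity)] at h1
      linarith
    have h3 : ((n:ℝ) / a + 1) ^ 2 ≤ (49 * ((j:ℝ) + 1)) ^ 2 := by
      apply pow_le_pow_left₀ (by positivity)
      have : (0:ℝ) ≤ j := by positivity
      linarith
    have hm0 : (0:ℝ) < (m' j : ℝ) := by
      have : 0 < m' j := by simp only [hm']; omega
      exact_mod_cast this
    rw [div_le_iff₀ hm0]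
    have h4 : C * (49 * ((j:ℝ) + 1)) ^ 2 * 2 ^ (j + 1) / ε ≤ (m' j : ℝ) := by
      simp only [hm']
      push_cast
      have := Nat.le_ceil (C * (49 * ((j:ℝ) + 1)) ^ 2 * 2 ^ (j + 1) / ε)
      linarith
    rw [div_le_iff₀ hε] at h4
    have h5 : (0:ℝ) < 2 ^ (j + 1) := by positivity
    calc C * ((n:ℝ) / a + 1) ^ 2 ≤ C * (49 * ((j:ℝ) + 1)) ^ 2 :=
          mul_le_mul_of_nonneg_left h3 hC0.le
      _ = (C * (49 * ((j:ℝ) + 1)) ^ 2 * 2 ^ (j + 1)) * (1/2) ^ (j + 1) := by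
          rw [one_div, inv_pow, mul_assoc _ ((2:ℝ) ^ (j + 1)), mul_inv_cancel₀ h5.ne', mul_one]
      _ ≤ ((m' j : ℝ) * ε) * (1/2) ^ (j + 1) :=
          mul_le_mul_of_nonneg_right h4 (by positivity)
      _ = ε * (1/2) ^ (j + 1) * (m' j : ℝ) := by ring
  refine (Finset.sum_le_sum hterm).trans ?_
  rw [← Finset.mul_sum]
  have h6 : ∑ j ∈ (Finset.range n).filter (fun j => n' j ≤ n), (1/2:ℝ) ^ (j + 1) ≤ 1 := by
    refine (Finset.sum_le_sum_of_subset_of_nonneg (Finset.filter_subset _ _)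
      (fun _ _ _ => by positivity)).trans ?_
    have h7 : ∀ n : ℕ, ∑ j ∈ Finset.range n, (1/2:ℝ) ^ (j + 1) = 1 - (1/2) ^ n := by
      intro n
      induction n with
      | zero => simp
      | succ n ih => rw [Finset.sum_range_succ, ih, pow_succ]; ring
    rw [h7]
    have : (0:ℝ) ≤ (1/2) ^ n := by positivity
    linarith
  nlinarith

end Run7.h561.FL
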