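import Pool.Agent.Run7.h561.FL.Fin

/-! # Every almost sure property of one interface holds for all the interfaces at once -/

set_option autoImplicit false

namespace Run7.h561.FL

open MeasureTheory Filter Topology TopologicalSpace Metric Set
open H342L H342T H974 H12S H984P
open Run7.h561.CC (Seq lawE lawE_apply)
open Run7.h165.GI (Full Itf IsItf law)
open Pool.Agent.TH990.FU (zp)
open scoped ENNReal

/-- `P` holds almost surely for all the subsequential limits of sequences of interfaces which are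
complete in `D`. -/
def OneItf (s : Seq) (D : Set ℂ) (P : Curve → Prop) : Prop :=
  ∀ γ : ℕ → Finset Edg → Curve, Itf s D γ → ∀ φ : ℕ → ℕ, StrictMono φ →
    ∀ μ : ProbabilityMeasure Curve, Tendsto (fun i => law s γ (φ i)) atTop (𝓝 μ) →
      ∀ᵐ c : Curve ∂(μ : Measure Curve), P c

/-- the classes of the curves without the property -/
def BadP (P : Curve → Prop) : Set CurveQ := {y | ∃ c, cls c = y ∧ ¬ P c}

/-- null sets of curves and of their classes -/
theorem badP_null {P : Curve → Prop} {μ : ProbabilityMeasure Curve}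
    (h : ∀ᵐ c : Curve ∂(μ : Measure Curve), P c) :
    ((μ.map SeparationQuotient.continuous_mk.measurable.aemeasurable :
      ProbabilityMeasure CurveQ) : Measure CurveQ) (BadP P) = 0 := by
  have hsurj : Function.Surjective (SeparationQuotient.mk : Curve → CurveQ) :=
    SeparationQuotient.surjective_mk
  let out : CurveQ → Curve := Function.surjInv hsurj
  have hout : ∀ q, (SeparationQuotient.mk (out q) : CurveQ) = q := Function.surjInv_eq hsurj
  have hoc : Continuous out := by
    rw [SeparationQuotient.isInducing_mk.continuous_iff]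
    have : (SeparationQuotient.mk : Curve → CurveQ) ∘ out = id := by
      funext q
      exact hout q
    rw [this]
    exact continuous_id
  rw [ae_iff] at h
  obtain ⟨N, hN1, hN2, hN3⟩ := exists_measurable_superset_of_null h
  have h1 : BadP P ⊆ out ⁻¹' N := by
    rintro y ⟨c, rfl, hc⟩
    have hins : Inseparable (out (cls c)) c := by
      rw [← SeparationQuotient.mk_eq_mk]
      exact hout _
    exact (hins.mem_measurableSet_iff hN2).2 (hN1 hc)
  refine measure_mono_null h1 ?_
  rw [ProbabilityMeasure.toMeasure_map,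
    Measure.map_apply SeparationQuotient.continuous_mk.measurable (hoc.measurable hN2)]
  refine le_antisymm ((measure_mono fun c hc => ?_).trans hN3.le) zero_le
  have hins : Inseparable (out (SeparationQuotient.mk c)) c := by
    rw [← SeparationQuotient.mk_eq_mk]
    exact hout _
  exact (hins.mem_measurableSet_iff hN2).1 hc

/-- One point of the dense set and one radius. -/
theorem one_ballP {s : Seq} {D : Set ℂ} {P : Curve → Prop} (hP : OneItf s D P)
    {C : ℕ → Finset Edg → Col} (hC : IsCol s D C) {ψ : ℕ → ℕ} (hψ : StrictMono ψ)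
    {M : ProbabilityMeasure Col}
    (hM : Tendsto (fun i => lawC s C (ψ i)) atTop (𝓝 M)) (x : CurveQ) (r : ℝ) :
    (M : Measure Col) (BB x r (BadP P)) = 0 := by
  classical
  obtain ⟨R, hR1, hR2⟩ := hC
  -- the selection
  have hsel : ∀ n, ∀ F : Finset Edg, ∃ c : Curve, F ⊆ s.E n →
      (∃ p ∈ R n F, c = pth (s.δ n) (s.o n) (s.G n F) p) ∧ cls c ∈ (C n F : Set CurveQ) ∧
        infDist x (C n F) = dist x (cls c) := by
    intro n F
    by_cases hF : F ⊆ s.E n
    · obtain ⟨y, hy, hd⟩ := (C n F).isCompact.exists_infDist_eq_dist (C n F).nonempty x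
      have h1 := hy
      rw [(hR1 n F hF).1] at h1
      obtain ⟨p, hp, rfl⟩ := h1
      exact ⟨_, fun _ => ⟨⟨p, hp, rfl⟩, hy, hd⟩⟩
    · exact ⟨⟨ContinuousMap.const _ 0⟩, fun h => absurd h hF⟩
  choose γ hγ using hsel
  have hitf : Itf s D γ := by
    intro L hL hc
    filter_upwards [hR2 L hL hc] with n hn F hF
    obtain ⟨⟨p, hp, e⟩, -, -⟩ := hγ n F hF
    obtain ⟨h1, h2⟩ := (hR1 n F hF).2 p hp
    refine ⟨p.1, p.2, h1, h2, ?_, (hn F hF p hp).1⟩
    rw [e]
    rfl
  have hok : Ok (fun _ : Edg => (1/2:ℝ)) := fun _ => ⟨by norm_num, by norm_num⟩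
  -- tightness
  obtain ⟨φ, μ, hφ, hμ⟩ := PRK_gen (fun i => law s γ (ψ i)) (by
    intro ε hε
    obtain ⟨K, hK, hKε⟩ := strong_tight hM hε
    refine ⟨SeparationQuotient.mk ⁻¹' K, ?_, fun n => ?_⟩
    · rw [SeparationQuotient.isInducing_mk.isCompact_iff,
        Set.image_preimage_eq _ SeparationQuotient.surjective_mk]
      exact hK
    · have hm : MeasurableSet (SeparationQuotient.mk ⁻¹' K : Set Curve) :=
        SeparationQuotient.continuous_mk.measurable hK.isClosed.measurableSet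
      have h1 := hKε n
      have hm2 : MeasurableSet {L : Col | (L : Set CurveQ) ⊆ K}ᶜ :=
        (NonemptyCompacts.isClosed_subsets_of_isClosed hK.isClosed).measurableSet.compl
      refine le_trans ?_ h1
      show (lawE (s.E (ψ n)) (γ (ψ n)) : Measure Curve) _ ≤
        (lawE (s.E (ψ n)) (C (ψ n)) : Measure Col) _
      rw [lawE_apply _ _ hm.compl, lawE_apply _ _ hm2]
      apply ENNReal.ofReal_le_ofReal
      unfold PQ
      exact Pr_mono hok fun F hF h2 h3 => h2 (h3 (hγ (ψ n) F hF).2.1))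
  have h2 := hP γ hitf (fun i => ψ (φ i)) (hψ.comp hφ) μ hμ
  have h3 := badP_null h2
  have h4 := ProbabilityMeasure.tendsto_map_of_tendsto_of_continuous _ _ hμ
    (SeparationQuotient.continuous_mk : Continuous (SeparationQuotient.mk : Curve → CurveQ))
  refine sel_null (hM.comp hφ.tendsto_atTop) h4 (fun n O hO => ?_) h3
  show (lawE (s.E (ψ (φ n))) (C (ψ (φ n))) : Measure Col) _ ≤ _
  rw [ProbabilityMeasure.toMeasure_map,
    Measure.map_apply SeparationQuotient.continuous_mk.measurable hO.measurableSet]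
  show _ ≤ (lawE (s.E (ψ (φ n))) (γ (ψ (φ n))) : Measure Curve) _
  rw [lawE_apply _ _ (tt_open x r hO).measurableSet,
    lawE_apply _ _ (SeparationQuotient.continuous_mk.measurable hO.measurableSet)]
  apply ENNReal.ofReal_le_ofReal
  unfold PQ
  refine Pr_mono hok fun F hF h5 => ?_
  obtain ⟨-, h6, h7⟩ := hγ (ψ (φ n)) F hF
  obtain ⟨⟨y, hy1, hy2⟩, h8⟩ := h5
  have h9 : dist x (cls (γ (ψ (φ n)) F)) ≤ r := by
    rw [← h7]
    refine (infDist_le_dist_of_mem hy1).trans ?_
    rw [dist_comm]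
    exact (mem_ball.1 hy2).le
  rcases h8 h6 with h10 | h10
  · exact h10
  · exact absurd (mem_closedBall.2 (by rw [dist_comm]; exact h9)) h10

theorem sub_col {s : Seq} {D : Set ℂ} {C : ℕ → Finset Edg → Col} (h : IsCol s D C) {φ : ℕ → ℕ}
    (hφ : StrictMono φ) : IsCol (Run7.h165.CC.sub s φ hφ) D (fun i => C (φ i)) := by
  obtain ⟨R, h1, h2⟩ := h
  exact ⟨fun i => R (φ i), fun n F hF => h1 (φ n) F hF,
    fun L hL hc => hφ.tendsto_atTop.eventually (h2 L hL hc)⟩

/-- **Transfer.** -/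
theorem transfer {s : Seq} {D : Set ℂ} (hD : IsOpen D) (hag : s.Agree D) {P : Curve → Prop}
    (hP : OneItf s D P) {C : ℕ → Finset Edg → Col} (hC : IsCol s D C) {ψ : ℕ → ℕ}
    (hψ : StrictMono ψ) {M : ProbabilityMeasure Col}
    (hM : Tendsto (fun i => lawC s C (ψ i)) atTop (𝓝 M)) :
    ∀ᵐ 𝓛 : Col ∂(M : Measure Col), ∀ c : Curve, cls c ∈ 𝓛 → (∃ t, c.path t ∈ D) →
      (∃ t t', c.path t ≠ c.path t') → P c := by
  have h1 : ∀ᵐ 𝓛 : Col ∂(M : Measure Col), ∀ (a b r : ℚ), 0 < r →
      Run7.h561.EC.Sq (4 * (r : ℝ)) ⟨a, b⟩ ⊆ D →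
      ((𝓛 : Set CurveQ) ∩ CrQ ⟨a, b⟩ r).Finite := by
    refine ae_all_iff.2 fun a => ae_all_iff.2 fun b => ae_all_iff.2 fun r => ?_
    by_cases hc : 0 < r ∧ Run7.h561.EC.Sq (4 * (r : ℝ)) ⟨a, b⟩ ⊆ D
    · filter_upwards [finite_cross t_CNT hD (Run7.h165.CC.sub_agree hag hψ) (sub_col hC hψ) hM
        (z := ⟨a, b⟩) (r := (r : ℝ)) (by exact_mod_cast hc.1) hc.2] with 𝓛 h _ _
      exact h
    · exact Eventually.of_forall fun 𝓛 e1 e2 => absurd ⟨e1, e2⟩ hc
  have h2 : ∀ᵐ 𝓛 : Col ∂(M : Measure Col), ∀ j m : ℕ,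
      𝓛 ∉ BB (denseSeq CurveQ j) (1 / ((m : ℝ) + 1)) (BadP P) := by
    refine ae_all_iff.2 fun j => ae_all_iff.2 fun m => ?_
    have h := one_ballP hP hC hψ hM (denseSeq CurveQ j) (1 / ((m : ℝ) + 1))
    rw [ae_iff]
    simpa using h
  filter_upwards [h1, h2] with 𝓛 g1 g2 c hc ⟨v, hzD⟩ hnc
  set z := c.path v with hz
  obtain ⟨u, s', hne⟩ := hnc
  have hcross : ∃ a b r : ℚ, 0 < r ∧ Run7.h561.EC.Sq (4 * (r : ℝ)) ⟨a, b⟩ ⊆ D ∧
      cls c ∈ CrQ ⟨a, b⟩ (r : ℝ) := by
    obtain ⟨ε, hε, hb⟩ := Metric.isOpen_iff.1 hD z hzD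
    have hd : 0 < dist (c.path u) (c.path s') := dist_pos.2 hne
    obtain ⟨r, hr0, hr⟩ := exists_rat_btwn (show (0 : ℝ) < min (ε / 20) (dist (c.path u)
      (c.path s') / 20) from by positivity)
    obtain ⟨a, ha1, ha2⟩ := exists_rat_btwn (show z.re < z.re + r from by linarith)
    obtain ⟨b, hb1, hb2⟩ := exists_rat_btwn (show z.im < z.im + r from by linarith)
    have hr1 : (r : ℝ) < ε / 20 := hr.trans_le (min_le_left _ _)
    have hr2 : (r : ℝ) < dist (c.path u) (c.path s') / 20 := hr.trans_le (min_le_right _ _)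
    refine ⟨a, b, r, by exact_mod_cast hr0, fun y hy => hb ?_, ?_, ?_⟩
    · obtain ⟨h3, h4⟩ := hy
      rw [abs_lt] at h3 h4
      simp only at h3 h4
      rw [Metric.mem_ball, dist_eq_norm]
      refine (Complex.norm_le_abs_re_add_abs_im _).trans_lt ?_
      rw [Complex.sub_re, Complex.sub_im]
      have h5 : |y.re - z.re| ≤ 5 * r := abs_le.2 ⟨by linarith, by linarith⟩
      have h6 : |y.im - z.im| ≤ 5 * r := abs_le.2 ⟨by linarith, by linarith⟩
      linarith
    · refine ⟨z, ?_, ?_⟩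
      · rw [tr_cls]
        exact ⟨v, rfl⟩
      · constructor
        · show |z.re - a| < r
          rw [abs_lt]; constructor <;> linarith
        · show |z.im - b| < r
          rw [abs_lt]; constructor <;> linarith
    · by_contra hcon
      have hin : ∀ t, |(c.path t).re - a| ≤ 2 * r ∧ |(c.path t).im - b| ≤ 2 * r := by
        intro t
        by_contra h3
        apply hcon
        refine ⟨c.path t, ?_, ?_⟩
        · rw [tr_cls]; exact ⟨t, rfl⟩
        · rw [not_and_or, not_le, not_le] at h3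
          exact h3
      obtain ⟨h3, h4⟩ := hin u
      obtain ⟨h5, h6⟩ := hin s'
      have h7 : dist (c.path u) (c.path s') ≤ 8 * r := by
        rw [dist_eq_norm]
        refine (Complex.norm_le_abs_re_add_abs_im _).trans ?_
        rw [Complex.sub_re, Complex.sub_im]
        rw [abs_le] at h3 h4 h5 h6
        have h8 : |(c.path u).re - (c.path s').re| ≤ 4 * r :=
          abs_le.2 ⟨by linarith, by linarith⟩
        have h9 : |(c.path u).im - (c.path s').im| ≤ 4 * r :=
          abs_le.2 ⟨by linarith, by linarith⟩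
        linarith
      linarith
  obtain ⟨a, b, r, hr, hsq, hcr⟩ := hcross
  obtain ⟨ε, hε, hiso⟩ := isolated (crQ_open _ _) (g1 a b r hr hsq) hcr
  obtain ⟨m, hm⟩ := exists_nat_one_div_lt (show (0 : ℝ) < ε / 2 by positivity)
  have hm0 : (0 : ℝ) < 1 / ((m : ℝ) + 1) := by positivity
  obtain ⟨j, hj⟩ := (denseRange_denseSeq CurveQ).exists_dist_lt (cls c) hm0
  by_contra hbad
  apply g2 j m
  refine ⟨cls c, ⟨c, rfl, hbad⟩, Metric.mem_ball.2 hj, ?_⟩
  ext y
  constructor
  · rintro ⟨hy1, hy2⟩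
    refine hiso y hy1 ?_
    have h3 := Metric.mem_closedBall.1 hy2
    calc dist y (cls c) ≤ dist y (denseSeq CurveQ j) + dist (cls c) (denseSeq CurveQ j) :=
          dist_triangle_right _ _ _
      _ < ε := by linarith
  · intro hy
    rw [mem_singleton_iff.1 hy]
    exact ⟨hc, Metric.mem_closedBall.2 hj.le⟩

end Run7.h561.FL
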